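import Mathlib

/-!
# Norms of effective divisors

`V` is the set of primes, `N v` the norm of the prime `v`, and `V →₀ ℕ` is the monoid of effective
divisors.
-/

open Finset

namespace Pool.Agent.H98.C1

variable {V : Type*} (N : V → ℕ)

/-- The norm of an effective divisor. -/
noncomputable def nrm (D : V →₀ ℕ) : ℕ := D.prod fun v k => N v ^ k

@[simp] theorem nrm_zero : nrm N 0 = 1 := by simp [nrm]

theorem nrm_add (D D' : V →₀ ℕ) : nrm N (D + D') = nrm N D * nrm N D' :=
  Finsupp.prod_add_index' (by simp) (fun a b c => pow_add _ _ _)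

@[simp] theorem nrm_single (v : V) (k : ℕ) : nrm N (Finsupp.single v k) = N v ^ k :=
  Finsupp.prod_single_index (by simp)

variable {N} in
theorem nrm_pos (hN : ∀ v, 2 ≤ N v) (D : V →₀ ℕ) : 0 < nrm N D :=
  Finset.prod_pos fun v _ => pow_pos (by have := hN v; omega) _

variable {N} in
theorem two_le_nrm (hN : ∀ v, 2 ≤ N v) {D : V →₀ ℕ} (hD : D ≠ 0) : 2 ≤ nrm N D := by
  classical
  obtain ⟨v, hv⟩ := Finsupp.ne_iff.1 hD
  rw [Finsupp.coe_zero, Pi.zero_apply] at hv
  have h1 : Finsupp.single v 1 ≤ D := by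
    rw [Finsupp.single_le_iff]
    omega
  obtain ⟨D', rfl⟩ := exists_add_of_le h1
  rw [nrm_add, nrm_single, pow_one]
  exact le_trans (hN v) (Nat.le_mul_of_pos_right _ (nrm_pos hN D'))

variable {N} in
/-- The logarithm of the norm of `D` as a sum over the prime powers dividing `D`. -/
theorem hasSum_log (hN : ∀ v, 2 ≤ N v) (D : V →₀ ℕ) :
    HasSum (fun p : {p : Σ _ : V, ℕ // p.2 < D p.1} => Real.log (N p.1.1))
      (Real.log (nrm N D)) := by
  classical
  let s : Finset (Σ _ : V, ℕ) := D.support.sigma fun v => Finset.range (D v)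
  have hs : ∀ p : Σ _ : V, ℕ, p ∈ s ↔ p.2 < D p.1 := by
    intro p
    simp only [s, Finset.mem_sigma, Finsupp.mem_support_iff, Finset.mem_range]
    constructor
    · exact fun h => h.2
    · exact fun h => ⟨by omega, h⟩
  have h1 : HasSum (fun p : {p : Σ _ : V, ℕ // p ∈ s} => Real.log (N p.1.1))
      (∑ p ∈ s, Real.log (N p.1)) := s.hasSum (fun p => Real.log (N p.1))
  have h2 : ∑ p ∈ s, Real.log (N p.1) = Real.log (nrm N D) := by
    rw [Finset.sum_sigma, nrm, Finsupp.prod, Nat.cast_prod, Real.log_prod]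
    · refine Finset.sum_congr rfl fun v _ => ?_
      change ∑ _s ∈ range (D v), Real.log (N v) = _
      rw [Finset.sum_const, Finset.card_range, Nat.cast_pow, Real.log_pow, nsmul_eq_mul]
    · intro v _
      have := hN v
      positivity
  rw [h2] at h1
  exact (Equiv.subtypeEquivRight hs).hasSum_iff.1 h1

/-- Pairs (effective divisor, prime power) correspond to pairs (effective divisor, prime power
dividing it). -/
noncomputable def pairEquiv : ((V →₀ ℕ) × (Σ _ : V, ℕ)) ≃
    Σ D : V →₀ ℕ, {p : Σ _ : V, ℕ // p.2 < D p.1} where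
  toFun P := ⟨P.1 + Finsupp.single P.2.1 (P.2.2 + 1), ⟨P.2, by
    classical
    rw [Finsupp.add_apply, Finsupp.single_eq_same]
    omega⟩⟩
  invFun P := (P.1 - Finsupp.single P.2.1.1 (P.2.1.2 + 1), P.2.1)
  left_inv P := by
    simp
  right_inv P := by
    obtain ⟨D, p, hp⟩ := P
    have h1 : D - Finsupp.single p.1 (p.2 + 1) + Finsupp.single p.1 (p.2 + 1) = D :=
      tsub_add_cancel_of_le (by rw [Finsupp.single_le_iff]; omega)
    refine Sigma.ext h1 ?_
    simp only
    congr!

end Pool.Agent.H98.C1
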