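import Mathlib
import Pool.Agent.H98.C1.Nrm

/-!
# The convolution identity

For a completely multiplicative `f` on effective divisors,
`∑ log (N D) f(D) = (∑ f(D)) (∑ log (N v) f(k v))`, the last sum over the prime powers.
-/

open Finset

namespace Pool.Agent.H98.C1

variable {V : Type*} {N : V → ℕ}

theorem single_injective :
    Function.Injective fun p : Σ _ : V, ℕ => Finsupp.single p.1 (p.2 + 1) := by
  rintro ⟨v, k⟩ ⟨w, l⟩ h
  simp only at h
  rw [Finsupp.single_eq_single_iff] at h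
  rcases h with ⟨rfl, h⟩ | ⟨h, _⟩
  · obtain rfl : k = l := by omega
    rfl
  · omega

theorem summable_pp (hN : ∀ v, 2 ≤ N v) {f : (V →₀ ℕ) → ℂ}
    (hl : Summable fun D => Real.log (nrm N D) * ‖f D‖) :
    Summable fun p : Σ _ : V, ℕ => Real.log (N p.1) * ‖f (Finsupp.single p.1 (p.2 + 1))‖ := by
  refine Summable.of_nonneg_of_le (fun p => ?_) (fun p => ?_)
    (hl.comp_injective (single_injective (V := V)))
  · exact mul_nonneg (Real.log_natCast_nonneg _) (norm_nonneg _)
  · rw [Function.comp_apply, nrm_single]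
    refine mul_le_mul_of_nonneg_right ?_ (norm_nonneg _)
    refine Real.log_le_log ?_ ?_
    · have := hN p.1
      positivity
    · have h1 : N p.1 ≤ N p.1 ^ (p.2 + 1) :=
        Nat.le_self_pow (by omega) _
      exact_mod_cast h1

theorem conv (hN : ∀ v, 2 ≤ N v) {f : (V →₀ ℕ) → ℂ} (hadd : ∀ D D', f (D + D') = f D * f D')
    (hs : Summable fun D => ‖f D‖) (hl : Summable fun D => Real.log (nrm N D) * ‖f D‖) :
    HasSum (fun D => (Real.log (nrm N D) : ℂ) * f D)
      ((∑' D, f D) * ∑' p : Σ _ : V, ℕ,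
        (Real.log (N p.1) : ℂ) * f (Finsupp.single p.1 (p.2 + 1))) := by
  classical
  have hp := summable_pp hN hl
  obtain ⟨g, hg⟩ : ∃ g : (Σ _ : V, ℕ) → ℂ, g = fun p =>
      (Real.log (N p.1) : ℂ) * f (Finsupp.single p.1 (p.2 + 1)) := ⟨_, rfl⟩
  have hp' : Summable fun p => ‖g p‖ := by
    refine hp.congr fun p => ?_
    rw [hg, norm_mul, Complex.norm_real, Real.norm_of_nonneg (Real.log_natCast_nonneg _)]
  rw [← hg]
  have h1 : HasSum (fun P : (V →₀ ℕ) × (Σ _ : V, ℕ) => f P.1 * g P.2)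
      ((∑' D, f D) * ∑' p, g p) :=
    hs.of_norm.hasSum.mul hp'.of_norm.hasSum (summable_mul_of_summable_norm hs hp')
  have h3 : HasSum (fun P : Σ D : V →₀ ℕ, {p : Σ _ : V, ℕ // p.2 < D p.1} =>
      (Real.log (N P.2.1.1) : ℂ) * f P.1) ((∑' D, f D) * ∑' p, g p) := by
    refine (Equiv.hasSum_iff (pairEquiv (V := V))).1 ?_
    refine HasSum.congr_fun h1 fun P => ?_
    rw [Function.comp_apply]
    change (Real.log (N P.2.1) : ℂ) * f (P.1 + Finsupp.single P.2.1 (P.2.2 + 1)) = _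
    rw [hadd, hg]
    ring
  refine h3.sigma fun D => ?_
  have h4 := (hasSum_log hN D)
  have h5 : HasSum (fun p : {p : Σ _ : V, ℕ // p.2 < D p.1} => ((Real.log (N p.1.1) : ℝ) : ℂ))
      ((Real.log (nrm N D) : ℝ) : ℂ) := Complex.hasSum_ofReal.2 h4
  exact h5.mul_right (f D)

end Pool.Agent.H98.C1
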