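import Mathlib
import Pool.Agent.H98.C1.Conv

/-!
# Dirichlet series twisted by characters of a finite group of classes
-/

open Finset Filter Topology

namespace Pool.Agent.H98.C1

variable {V Q : Type*} [AddCommGroup Q]

/-- The class of an effective divisor. -/
noncomputable def cl (c : V → Q) : (V →₀ ℕ) →+ Q := Finsupp.liftAddHom fun v => multiplesHom Q (c v)

@[simp] theorem cl_single (c : V → Q) (v : V) (k : ℕ) : cl c (Finsupp.single v k) = k • c v := by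
  simp [cl]

/-- The analytic input. -/
structure Hyp (N : V → ℕ) (c : V → Q) where
  two_le : ∀ v, 2 ≤ N v
  summ : ∀ σ : ℝ, 1 < σ → Summable fun D : V →₀ ℕ => (nrm N D : ℝ) ^ (-σ)
  Z : Q → ℂ → ℂ
  diff : ∀ q, DifferentiableOn ℂ (Z q) {1}ᶜ
  ρ : ℝ
  ρ_ne : ρ ≠ 0
  res : ∀ q, Tendsto (fun s => (s - 1) * Z q s) (𝓝[≠] 1) (𝓝 (ρ : ℂ))
  sum : ∀ q s, 1 < s.re →
    HasSum (fun D : {D : V →₀ ℕ // cl c D = q} => (nrm N D.1 : ℂ) ^ (-s)) (Z q s)

/-- The general term of the twisted Dirichlet series. -/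
noncomputable def wt (N : V → ℕ) (c : V → Q) (ψ : AddChar Q ℂ) (s : ℂ) (D : V →₀ ℕ) : ℂ :=
  ψ (cl c D) * (nrm N D : ℂ) ^ (-s)

/-- The sum over the prime powers. -/
noncomputable def Lam (N : V → ℕ) (c : V → Q) (ψ : AddChar Q ℂ) (s : ℂ) : ℂ :=
  ∑' p : Σ _ : V, ℕ, (Real.log (N p.1) : ℂ) * wt N c ψ s (Finsupp.single p.1 (p.2 + 1))

variable {N : V → ℕ} {c : V → Q}

theorem wt_add (ψ : AddChar Q ℂ) (s : ℂ) (D D' : V →₀ ℕ) :
    wt N c ψ s (D + D') = wt N c ψ s D * wt N c ψ s D' := by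
  unfold wt
  rw [map_add, AddChar.map_add_eq_mul, nrm_add, Nat.cast_mul, Complex.natCast_mul_natCast_cpow]
  ring

theorem norm_wt [Finite Q] (hN : ∀ v, 2 ≤ N v) (ψ : AddChar Q ℂ) (s : ℂ) (D : V →₀ ℕ) :
    ‖wt N c ψ s D‖ = (nrm N D : ℝ) ^ (-s.re) := by
  unfold wt
  rw [norm_mul, AddChar.norm_apply, one_mul,
    Complex.norm_natCast_cpow_of_pos (nrm_pos hN D), Complex.neg_re]

theorem Hyp.summ_log (h : Hyp N c) {σ : ℝ} (hσ : 1 < σ) :
    Summable fun D : V →₀ ℕ => Real.log (nrm N D) * (nrm N D : ℝ) ^ (-σ) := by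
  have hε : 0 < (σ - 1) / 2 := by linarith
  have h1 : 1 < (σ + 1) / 2 := by linarith
  refine Summable.of_nonneg_of_le (fun D => ?_) (fun D => ?_)
    ((h.summ _ h1).mul_left (1 / ((σ - 1) / 2)))
  · exact mul_nonneg (Real.log_natCast_nonneg _) (by positivity)
  · have h2 := Real.log_le_rpow_div (x := (nrm N D : ℝ)) (by positivity) hε
    have h3 : (0 : ℝ) < nrm N D := by
      exact_mod_cast nrm_pos h.two_le D
    calc Real.log (nrm N D) * (nrm N D : ℝ) ^ (-σ)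
        ≤ (nrm N D : ℝ) ^ ((σ - 1) / 2) / ((σ - 1) / 2) * (nrm N D : ℝ) ^ (-σ) :=
          mul_le_mul_of_nonneg_right h2 (by positivity)
      _ = 1 / ((σ - 1) / 2) * ((nrm N D : ℝ) ^ ((σ - 1) / 2) * (nrm N D : ℝ) ^ (-σ)) := by ring
      _ = 1 / ((σ - 1) / 2) * (nrm N D : ℝ) ^ (-((σ + 1) / 2)) := by
          rw [← Real.rpow_add h3]
          congr 2
          ring

variable [Fintype Q]

theorem Hyp.summable_norm_wt (h : Hyp N c) (ψ : AddChar Q ℂ) {s : ℂ} (hs : 1 < s.re) :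
    Summable fun D => ‖wt N c ψ s D‖ := by
  simp_rw [norm_wt h.two_le ψ s]
  exact h.summ _ hs

/-- The twisted L-function. -/
noncomputable def Hyp.L (h : Hyp N c) (ψ : AddChar Q ℂ) (s : ℂ) : ℂ := ∑ q, ψ q * h.Z q s

theorem Hyp.hasSum_wt (h : Hyp N c) (ψ : AddChar Q ℂ) {s : ℂ} (hs : 1 < s.re) :
    HasSum (wt N c ψ s) (h.L ψ s) := by
  have h1 := (h.summable_norm_wt ψ hs).of_norm.hasSum
  have h2 := (Equiv.sigmaFiberEquiv (cl c)).hasSum_iff.2 h1
  have h3 := h2.sigma (g := fun q => ψ q * h.Z q s) (fun q => by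
    have h4 := (h.sum q s hs).mul_left (ψ q)
    refine HasSum.congr_fun h4 fun D => ?_
    rw [Function.comp_apply]
    change wt N c ψ s D.1 = _
    rw [wt, D.2])
  have h5 := (hasSum_fintype fun q => ψ q * h.Z q s).unique h3
  rw [Hyp.L, h5]
  exact h1

omit [Fintype Q] in
theorem differentiable_wt (hN : ∀ v, 2 ≤ N v) (ψ : AddChar Q ℂ) (D : V →₀ ℕ) :
    Differentiable ℂ fun s => wt N c ψ s D := by
  unfold wt
  have h1 : (nrm N D : ℂ) ≠ 0 := by
    exact_mod_cast (nrm_pos hN D).ne'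
  exact (differentiable_const _).mul ((differentiable_neg).const_cpow (Or.inl h1))

omit [Fintype Q] in
theorem deriv_wt (hN : ∀ v, 2 ≤ N v) (ψ : AddChar Q ℂ) (D : V →₀ ℕ) (s : ℂ) :
    deriv (fun s => wt N c ψ s D) s = -((Real.log (nrm N D) : ℂ) * wt N c ψ s D) := by
  have h1 : (nrm N D : ℂ) ≠ 0 := by
    exact_mod_cast (nrm_pos hN D).ne'
  have h2 : HasDerivAt (fun s : ℂ => (nrm N D : ℂ) ^ (-s))
      ((nrm N D : ℂ) ^ (-s) * Complex.log (nrm N D) * -1) s :=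
    (hasDerivAt_neg s).const_cpow (Or.inl h1)
  have h3 := (h2.const_mul (ψ (cl c D))).deriv
  unfold wt
  rw [h3, Complex.natCast_log]
  ring

theorem Hyp.hasSum_deriv (h : Hyp N c) (ψ : AddChar Q ℂ) {s : ℂ} (hs : 1 < s.re) :
    HasSum (fun D => -((Real.log (nrm N D) : ℂ) * wt N c ψ s D)) (deriv (h.L ψ) s) := by
  obtain ⟨a, ha, hb⟩ := exists_between hs
  have hU : IsOpen {z : ℂ | a < z.re} := isOpen_lt continuous_const Complex.continuous_re
  have h1 := Complex.hasSum_deriv_of_summable_norm (h.summ a ha)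
    (F := fun D s => wt N c ψ s D) (U := {z : ℂ | a < z.re})
    (fun D => (differentiable_wt h.two_le ψ D).differentiableOn) hU (fun D w hw => by
      rw [norm_wt h.two_le]
      refine Real.rpow_le_rpow_of_exponent_le ?_ ?_
      · exact_mod_cast nrm_pos h.two_le D
      · have : a < w.re := hw
        linarith) (z := s) hb
  have h2 : (fun w => ∑' D, wt N c ψ w D) =ᶠ[𝓝 s] h.L ψ := by
    filter_upwards [hU.mem_nhds hb] with w hw
    exact (h.hasSum_wt ψ (ha.trans hw)).tsum_eq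
  rw [h2.deriv_eq] at h1
  simp_rw [deriv_wt h.two_le] at h1
  exact h1

theorem Hyp.deriv_eq (h : Hyp N c) (ψ : AddChar Q ℂ) {s : ℂ} (hs : 1 < s.re) :
    deriv (h.L ψ) s = -(h.L ψ s * Lam N c ψ s) := by
  have h1 := conv h.two_le (f := wt N c ψ s) (wt_add ψ s) (h.summable_norm_wt ψ hs) (by
    simp_rw [norm_wt h.two_le ψ s]
    exact h.summ_log hs)
  rw [(h.hasSum_wt ψ hs).tsum_eq] at h1
  exact (h.hasSum_deriv ψ hs).unique h1.neg

end Pool.Agent.H98.C1
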