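import Mathlib
import Pool.Agent.H98.C1.LSer

/-!
# The pole of the logarithmic derivative at `s = 1`
-/

open Finset Filter Topology

namespace Pool.Agent.H98.C1

variable {V Q : Type*} [AddCommGroup Q] {N : V → ℕ} {c : V → Q} [Fintype Q]

/-- The function `(s - 1) L(s)` with the value at `1` filled in. -/
noncomputable def Hyp.G (h : Hyp N c) (ψ : AddChar Q ℂ) : ℂ → ℂ :=
  Function.update (fun s => (s - 1) * h.L ψ s) 1 (h.ρ * ∑ q, ψ q)

theorem Hyp.G_of_ne (h : Hyp N c) (ψ : AddChar Q ℂ) {s : ℂ} (hs : s ≠ 1) :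
    h.G ψ s = (s - 1) * h.L ψ s := by
  rw [Hyp.G, Function.update_of_ne hs]

theorem Hyp.G_one (h : Hyp N c) (ψ : AddChar Q ℂ) : h.G ψ 1 = h.ρ * ∑ q, ψ q := by
  rw [Hyp.G, Function.update_self]

theorem Hyp.differentiableOn_L (h : Hyp N c) (ψ : AddChar Q ℂ) :
    DifferentiableOn ℂ (h.L ψ) {1}ᶜ := by
  unfold Hyp.L
  exact DifferentiableOn.fun_sum fun q _ => (h.diff q).const_mul _

theorem Hyp.analyticAt_G (h : Hyp N c) (ψ : AddChar Q ℂ) : AnalyticAt ℂ (h.G ψ) 1 := by
  refine Complex.analyticAt_of_differentiable_on_punctured_nhds_of_continuousAt ?_ ?_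
  · have h1 : DifferentiableOn ℂ (fun s => (s - 1) * h.L ψ s) {1}ᶜ :=
      (differentiable_id.sub_const 1).differentiableOn.mul (h.differentiableOn_L ψ)
    filter_upwards [self_mem_nhdsWithin] with z hz
    have h2 : h.G ψ =ᶠ[𝓝 z] fun s => (s - 1) * h.L ψ s := by
      filter_upwards [isOpen_compl_singleton.mem_nhds hz] with w hw
      exact h.G_of_ne ψ hw
    exact (h1.differentiableAt (isOpen_compl_singleton.mem_nhds hz)).congr_of_eventuallyEq h2
  · refine continuousAt_update_same.2 ?_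
    have h1 : Tendsto (fun s => ∑ q, ψ q * ((s - 1) * h.Z q s)) (𝓝[≠] 1)
        (𝓝 (∑ q, ψ q * (h.ρ : ℂ))) :=
      tendsto_finsetSum _ fun q _ => (h.res q).const_mul _
    have h2 : ∑ q, ψ q * (h.ρ : ℂ) = h.ρ * ∑ q, ψ q := by
      rw [Finset.mul_sum]
      exact Finset.sum_congr rfl fun q _ => mul_comm _ _
    rw [h2] at h1
    refine h1.congr fun s => ?_
    rw [Hyp.L, Finset.mul_sum]
    exact Finset.sum_congr rfl fun q _ => by ring

/-- `L(s)` tends to `1` when `s` goes to infinity. -/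
theorem Hyp.tendsto_L (h : Hyp N c) (ψ : AddChar Q ℂ) :
    Tendsto (fun n : ℕ => h.L ψ (n : ℂ)) atTop (𝓝 1) := by
  classical
  have h1 : Tendsto (fun n : ℕ => ∑' D : V →₀ ℕ, wt N c ψ (n : ℂ) D) atTop
      (𝓝 (∑' D : V →₀ ℕ, if D = 0 then (1 : ℂ) else 0)) := by
    refine tendsto_tsum_of_dominated_convergence (h.summ 2 (by norm_num)) (fun D => ?_) ?_
    · by_cases hD : D = 0
      · subst hD
        refine tendsto_const_nhds.congr fun n => ?_
        simp [wt]
      · rw [if_neg hD]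
        rw [tendsto_zero_iff_norm_tendsto_zero]
        have h2 : (2 : ℝ) ≤ nrm N D := by exact_mod_cast two_le_nrm h.two_le hD
        have h3 : ∀ n : ℕ, ‖wt N c ψ (n : ℂ) D‖ = ((nrm N D : ℝ)⁻¹) ^ n := by
          intro n
          rw [norm_wt h.two_le, Complex.natCast_re, Real.rpow_neg (by positivity),
            Real.rpow_natCast, inv_pow]
        simp_rw [h3]
        refine tendsto_pow_atTop_nhds_zero_of_lt_one (by positivity) ?_
        exact inv_lt_one_of_one_lt₀ (by linarith)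
    · filter_upwards [eventually_ge_atTop 2] with n hn D
      rw [norm_wt h.two_le, Complex.natCast_re]
      refine Real.rpow_le_rpow_of_exponent_le ?_ ?_
      · exact_mod_cast nrm_pos h.two_le D
      · have : (2 : ℝ) ≤ n := by exact_mod_cast hn
        linarith
  rw [tsum_ite_eq] at h1
  refine h1.congr' ?_
  filter_upwards [eventually_ge_atTop 2] with n hn
  refine (h.hasSum_wt ψ ?_).tsum_eq
  rw [Complex.natCast_re]
  have : (2 : ℝ) ≤ n := by exact_mod_cast hn
  linarith

theorem Hyp.order_ne_top (h : Hyp N c) (ψ : AddChar Q ℂ) : analyticOrderAt (h.G ψ) 1 ≠ ⊤ := by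
  intro htop
  rw [analyticOrderAt_eq_top] at htop
  have h1 : ∃ z : ℂ, z ≠ 1 ∧ h.L ψ =ᶠ[𝓝 z] 0 := by
    obtain ⟨U, hU, hUo, h1U⟩ := eventually_nhds_iff.1 htop
    obtain ⟨z, hz, hz1⟩ : ∃ z ∈ U, z ≠ 1 := by
      have h3 : U ∩ {1}ᶜ ∈ 𝓝[≠] (1 : ℂ) :=
        inter_mem_nhdsWithin _ (hUo.mem_nhds h1U) |> fun h => by
          rw [Set.inter_comm]; exact h
      obtain ⟨z, hz⟩ := NormedField.nhdsNE_neBot (1 : ℂ) |>.nonempty_of_mem h3
      exact ⟨z, hz.1, hz.2⟩
    refine ⟨z, hz1, ?_⟩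
    filter_upwards [hUo.mem_nhds hz, isOpen_compl_singleton.mem_nhds hz1] with w hw hw1
    have h2 := hU w hw
    rw [h.G_of_ne ψ hw1, mul_eq_zero, sub_eq_zero] at h2
    exact h2.resolve_left hw1
  obtain ⟨z, hz, hL⟩ := h1
  have h2 : AnalyticOnNhd ℂ (h.L ψ) {1}ᶜ :=
    (h.differentiableOn_L ψ).analyticOnNhd isOpen_compl_singleton
  have h3 : IsPreconnected ({1}ᶜ : Set ℂ) :=
    (isConnected_compl_singleton_of_one_lt_rank (by simp) 1).isPreconnected
  have h4 := h2.eqOn_zero_of_preconnected_of_eventuallyEq_zero h3 hz hL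
  have h5 : Tendsto (fun n : ℕ => h.L ψ (n : ℂ)) atTop (𝓝 0) := by
    refine tendsto_const_nhds.congr' ?_
    filter_upwards [eventually_ge_atTop 2] with n hn
    refine (h4 ?_).symm
    rw [Set.mem_compl_iff, Set.mem_singleton_iff]
    intro h6
    have : n = 1 := by exact_mod_cast h6
    omega
  exact one_ne_zero (tendsto_nhds_unique (h.tendsto_L ψ) h5)

/-- The behaviour of the sum over prime powers at `s = 1`. -/
theorem Hyp.tendsto_Lam (h : Hyp N c) (ψ : AddChar Q ℂ) :
    ∃ j : ℕ, (ψ = 0 → j = 0) ∧ (ψ ≠ 0 → 1 ≤ j) ∧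
      Tendsto (fun s : ℝ => ((s : ℂ) - 1) * Lam N c ψ (s : ℂ)) (𝓝[>] 1) (𝓝 (1 - (j : ℂ))) := by
  classical
  obtain ⟨g, hg, hg1, hGg⟩ := (h.analyticAt_G ψ).analyticOrderAt_ne_top.1 (h.order_ne_top ψ)
  obtain ⟨j, hj⟩ : ∃ j, analyticOrderNatAt (h.G ψ) 1 = j := ⟨_, rfl⟩
  rw [hj] at hGg
  have hG1 := hGg.self_of_nhds
  rw [h.G_one, AddChar.sum_eq_ite] at hG1
  beta_reduce at hG1
  refine ⟨j, ?_, ?_, ?_⟩
  · intro hψ
    by_contra hj0
    rw [if_pos hψ, sub_self, zero_pow hj0, zero_smul, mul_eq_zero] at hG1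
    rcases hG1 with h1 | h1
    · exact h.ρ_ne (by exact_mod_cast h1)
    · exact Fintype.card_ne_zero (by exact_mod_cast h1)
  · intro hψ
    by_contra hj0
    obtain rfl : j = 0 := by omega
    rw [if_neg hψ, mul_zero, pow_zero, one_smul] at hG1
    exact hg1 hG1.symm
  · -- near `1`, away from `1`
    have h1 : ∀ᶠ z in 𝓝[≠] (1 : ℂ), (z - 1) * (-(deriv (h.L ψ) z) / h.L ψ z) =
        1 - (j : ℂ) - (z - 1) * (deriv g z / g z) ∧ h.L ψ z ≠ 0 := by
      have hgA : ∀ᶠ z in 𝓝 (1 : ℂ), AnalyticAt ℂ g z := hg.eventually_analyticAt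
      have hgn : ∀ᶠ z in 𝓝 (1 : ℂ), g z ≠ 0 := hg.continuousAt.eventually_ne hg1
      have hGn : ∀ᶠ z in 𝓝 (1 : ℂ), h.G ψ =ᶠ[𝓝 z] fun z => (z - 1) ^ j • g z :=
        hGg.eventually_nhds
      filter_upwards [nhdsWithin_le_nhds hgA, nhdsWithin_le_nhds hgn, nhdsWithin_le_nhds hGn,
        self_mem_nhdsWithin] with z hA hn hG hz
      have hz' : z - 1 ≠ 0 := sub_ne_zero.2 hz
      have hGz := hG.self_of_nhds
      beta_reduce at hGz
      rw [h.G_of_ne ψ hz, smul_eq_mul] at hGz
      have hL : h.L ψ z ≠ 0 := by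
        intro h0
        rw [h0, mul_zero] at hGz
        exact mul_ne_zero (pow_ne_zero _ hz') hn hGz.symm
      refine ⟨?_, hL⟩
      -- derivative of `G` in two ways
      have hd1 : HasDerivAt (h.G ψ) (1 * h.L ψ z + (z - 1) * deriv (h.L ψ) z) z := by
        have h2 : h.G ψ =ᶠ[𝓝 z] fun s => (s - 1) * h.L ψ s := by
          filter_upwards [isOpen_compl_singleton.mem_nhds hz] with w hw
          exact h.G_of_ne ψ hw
        have h3 : HasDerivAt (h.L ψ) (deriv (h.L ψ) z) z :=
          ((h.differentiableOn_L ψ).differentiableAt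
            (isOpen_compl_singleton.mem_nhds hz)).hasDerivAt
        exact (((hasDerivAt_id z).sub_const 1).mul h3).congr_of_eventuallyEq h2
      have hd2 : HasDerivAt (h.G ψ) ((j : ℂ) * (z - 1) ^ (j - 1) * 1 * g z +
          (z - 1) ^ j * deriv g z) z := by
        have h3 : HasDerivAt g (deriv g z) z := hA.differentiableAt.hasDerivAt
        have h4 := (((hasDerivAt_id z).sub_const 1).pow j).mul h3
        exact h4.congr_of_eventuallyEq (hG.trans (Eventually.of_forall fun w => smul_eq_mul _ _))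
      have hd := hd1.unique hd2
      have hj1 : (j : ℂ) * (z - 1) ^ (j - 1) * (z - 1) = (j : ℂ) * (z - 1) ^ j := by
        rcases Nat.eq_zero_or_pos j with rfl | hj0
        · simp
        · rw [mul_assoc, ← pow_succ, Nat.sub_add_cancel hj0]
      have hd' : (z - 1) * (deriv (h.L ψ) z) * ((z - 1) * g z) =
          ((j : ℂ) * (z - 1) ^ j * g z + (z - 1) ^ j * (z - 1) * deriv g z
            - (z - 1) * h.L ψ z) * g z := by
        linear_combination (z - 1) * g z * hd + g z * g z * hj1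
      have hkey : (z - 1) * (deriv (h.L ψ) z) * g z =
          h.L ψ z * ((j : ℂ) * g z + (z - 1) * deriv g z - g z) := by
        have h5 : (z - 1) * ((z - 1) * (deriv (h.L ψ) z) * g z) =
            (z - 1) * (h.L ψ z * ((j : ℂ) * g z + (z - 1) * deriv g z - g z)) := by
          linear_combination hd' - (j * g z + (z - 1) * deriv g z) * hGz
        exact mul_left_cancel₀ hz' h5
      field_simp
      linear_combination -hkey
    have h2 : Tendsto (fun z : ℂ => 1 - (j : ℂ) - (z - 1) * (deriv g z / g z)) (𝓝[≠] 1)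
        (𝓝 (1 - (j : ℂ))) := by
      have h3 : ContinuousAt (fun z : ℂ => 1 - (j : ℂ) - (z - 1) * (deriv g z / g z)) 1 := by
        have h4 : ContinuousAt (deriv g) 1 := hg.deriv.continuousAt
        have h5 : ContinuousAt g 1 := hg.continuousAt
        fun_prop (disch := exact hg1)
      have h6 := h3.tendsto
      simp only [sub_self, zero_mul, sub_zero] at h6
      exact h6.mono_left nhdsWithin_le_nhds
    have h3 : Tendsto (fun s : ℝ => (s : ℂ)) (𝓝[>] 1) (𝓝[≠] (1 : ℂ)) := by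
      refine tendsto_nhdsWithin_iff.2 ⟨?_, ?_⟩
      · have := Complex.continuous_ofReal.tendsto 1
        rw [Complex.ofReal_one] at this
        exact this.mono_left nhdsWithin_le_nhds
      · filter_upwards [self_mem_nhdsWithin] with s hs
        rw [Set.mem_compl_iff, Set.mem_singleton_iff]
        intro h6
        have h7 : s = 1 := by exact_mod_cast h6
        have h8 : (1 : ℝ) < s := hs
        linarith
    refine (h2.comp h3).congr' ?_
    filter_upwards [h3.eventually h1, self_mem_nhdsWithin] with s hs hs1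
    obtain ⟨hs2, hs3⟩ := hs
    rw [Function.comp_apply, ← hs2, h.deriv_eq ψ (by simpa using hs1), neg_neg,
      mul_div_cancel_left₀ _ hs3]

end Pool.Agent.H98.C1
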