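import Mathlib
import Pool.Agent.H98.C1.Pole

/-!
# Sums over primes
-/

open Finset Filter Topology

namespace Pool.Agent.H98.C1

variable {V Q : Type*} [AddCommGroup Q] {N : V → ℕ} {c : V → Q}

/-- The sum of `log (N v) / (N v)^s` over the primes in `S`. -/
noncomputable def PS (N : V → ℕ) (S : Set V) (s : ℝ) : ℝ :=
  ∑' v : S, Real.log (N v) * (N v : ℝ) ^ (-s)

/-- The term of the sum over prime powers. -/
noncomputable def tm (N : V → ℕ) (s : ℝ) (p : Σ _ : V, ℕ) : ℝ :=
  Real.log (N p.1) * ((N p.1 : ℝ) ^ (p.2 + 1)) ^ (-s)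

theorem tm_nonneg (s : ℝ) (p : Σ _ : V, ℕ) : 0 ≤ tm N s p :=
  mul_nonneg (Real.log_natCast_nonneg _) (by positivity)

theorem Hyp.summable_tm (h : Hyp N c) {s : ℝ} (hs : 1 < s) : Summable (tm N s) := by
  have h1 := h.summ_log hs
  refine Summable.of_nonneg_of_le (tm_nonneg s) (fun p => ?_)
    (h1.comp_injective (single_injective (V := V)))
  rw [Function.comp_apply, nrm_single, tm, Nat.cast_pow]
  refine mul_le_mul_of_nonneg_right ?_ (by positivity)
  have h2 := h.two_le p.1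
  refine Real.log_le_log (by positivity) ?_
  have h3 : N p.1 ≤ N p.1 ^ (p.2 + 1) := Nat.le_self_pow (by omega) _
  exact_mod_cast h3

theorem Hyp.summable_prime (h : Hyp N c) {s : ℝ} (hs : 1 < s) :
    Summable fun v => Real.log (N v) * (N v : ℝ) ^ (-s) := by
  have h1 := (h.summable_tm hs).comp_injective
    (i := fun v : V => (⟨v, 0⟩ : Σ _ : V, ℕ)) (fun a b hab => by simpa using hab)
  refine h1.congr fun v => ?_
  simp [tm]

theorem lam_term (ψ : AddChar Q ℂ) (s : ℝ) (p : Σ _ : V, ℕ) :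
    (Real.log (N p.1) : ℂ) * wt N c ψ (s : ℂ) (Finsupp.single p.1 (p.2 + 1)) =
      (tm N s p : ℂ) * ψ ((p.2 + 1) • c p.1) := by
  rw [wt, cl_single, nrm_single, tm, Nat.cast_pow]
  push_cast
  rw [Complex.ofReal_cpow (by positivity)]
  push_cast
  ring

variable [Fintype Q]

theorem Hyp.summable_lam (h : Hyp N c) (ψ : AddChar Q ℂ) {s : ℝ} (hs : 1 < s) :
    Summable fun p : Σ _ : V, ℕ => (tm N s p : ℂ) * ψ ((p.2 + 1) • c p.1) := by
  refine Summable.of_norm ((h.summable_tm hs).congr fun p => ?_)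
  rw [norm_mul, AddChar.norm_apply, mul_one, Complex.norm_real,
    Real.norm_of_nonneg (tm_nonneg s p)]

omit [Fintype Q] in
theorem Lam_eq (ψ : AddChar Q ℂ) (s : ℝ) :
    Lam N c ψ (s : ℂ) = ∑' p, (tm N s p : ℂ) * ψ ((p.2 + 1) • c p.1) := by
  unfold Lam
  exact tsum_congr fun p => lam_term ψ s p

omit [Fintype Q] in
theorem Lam_zero (s : ℝ) : Lam N c 0 (s : ℂ) = ((∑' p, tm N s p : ℝ) : ℂ) := by
  rw [Lam_eq, Complex.ofReal_tsum]
  exact tsum_congr fun p => by simp

theorem Hyp.tendsto_tm (h : Hyp N c) :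
    Tendsto (fun s : ℝ => (s - 1) * ∑' p, tm N s p) (𝓝[>] 1) (𝓝 1) := by
  obtain ⟨j, hj, -, hlim⟩ := h.tendsto_Lam (0 : AddChar Q ℂ)
  rw [hj rfl, Nat.cast_zero, sub_zero] at hlim
  have h1 := (Complex.continuous_re.tendsto 1).comp hlim
  rw [Complex.one_re] at h1
  refine h1.congr fun s => ?_
  rw [Function.comp_apply, Lam_zero, ← Complex.ofReal_one, ← Complex.ofReal_sub,
    ← Complex.ofReal_mul, Complex.ofReal_re]

omit [Fintype Q] in
/-- The contribution of the higher prime powers is bounded. -/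
theorem Hyp.exists_bound (h : Hyp N c) : ∃ C : ℝ, ∀ s : ℝ, 1 < s →
    ∑' p, tm N s p ≤ PS N Set.univ s + C := by
  classical
  have hV : Summable fun v => Real.log (N v) * (N v : ℝ) ^ (-(2 : ℝ)) :=
    h.summable_prime (by norm_num)
  have hg : Summable fun k : ℕ => 2 * (1 / 2 : ℝ) ^ k := summable_geometric_two.mul_left 2
  have hp : Summable fun x : V × ℕ => (Real.log (N x.1) * (N x.1 : ℝ) ^ (-(2 : ℝ))) *
      (2 * (1 / 2 : ℝ) ^ x.2) :=
    hV.mul_of_nonneg hg (fun v => mul_nonneg (Real.log_natCast_nonneg _) (by positivity))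
      (fun k => by positivity)
  have hp' := (Equiv.sigmaEquivProd V ℕ).summable_iff.2 hp
  obtain ⟨B, hB⟩ : ∃ B : (Σ _ : V, ℕ) → ℝ, B = (fun x : V × ℕ =>
    (Real.log (N x.1) * (N x.1 : ℝ) ^ (-(2 : ℝ))) * (2 * (1 / 2 : ℝ) ^ x.2)) ∘
      (Equiv.sigmaEquivProd V ℕ) := ⟨_, rfl⟩
  rw [← hB] at hp'
  refine ⟨∑' p, B p, fun s hs => ?_⟩
  have ht := h.summable_tm hs
  let i : V → Σ _ : V, ℕ := fun v => ⟨v, 0⟩
  have hi : Function.Injective i := fun a b hab => by simpa [i] using hab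
  have h1 : Summable fun p : Σ _ : V, ℕ => if p.2 = 0 then tm N s p else 0 := by
    refine Summable.of_nonneg_of_le (fun p => ?_) (fun p => ?_) ht
    · split_ifs
      · exact tm_nonneg s p
      · exact le_rfl
    · split_ifs
      · exact le_rfl
      · exact tm_nonneg s p
  have h2 : ∀ p : Σ _ : V, ℕ, tm N s p ≤ (if p.2 = 0 then tm N s p else 0) + B p := by
    intro p
    have hB0 : 0 ≤ B p := by
      rw [hB]
      exact mul_nonneg (mul_nonneg (Real.log_natCast_nonneg _) (by positivity)) (by positivity)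
    split_ifs with hk
    · linarith
    · rw [zero_add, hB]
      obtain ⟨v, k⟩ := p
      obtain ⟨k, rfl⟩ : ∃ l, k = l + 1 := ⟨k - 1, by simp only at hk; omega⟩
      change Real.log (N v) * ((N v : ℝ) ^ (k + 1 + 1)) ^ (-s) ≤
        Real.log (N v) * (N v : ℝ) ^ (-(2 : ℝ)) * (2 * (1 / 2 : ℝ) ^ (k + 1))
      rw [mul_assoc]
      refine mul_le_mul_of_nonneg_left ?_ (Real.log_natCast_nonneg _)
      have h2N : (2 : ℝ) ≤ N v := by exact_mod_cast h.two_le v
      have h1N : (1 : ℝ) ≤ (N v : ℝ) ^ (k + 1 + 1) := one_le_pow₀ (by linarith)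
      calc ((N v : ℝ) ^ (k + 1 + 1)) ^ (-s) ≤ ((N v : ℝ) ^ (k + 1 + 1)) ^ (-(1 : ℝ)) :=
            Real.rpow_le_rpow_of_exponent_le h1N (by linarith)
        _ = (N v : ℝ) ^ (-(2 : ℝ)) * ((N v : ℝ) ^ k)⁻¹ := by
            rw [Real.rpow_neg_one, Real.rpow_neg (by positivity)]
            have : ((N v : ℝ) ^ (2 : ℝ)) = (N v : ℝ) ^ 2 := by
              exact_mod_cast Real.rpow_natCast (N v : ℝ) 2
            rw [this, ← mul_inv]
            congr 1
            ring
        _ ≤ (N v : ℝ) ^ (-(2 : ℝ)) * (2 * (1 / 2 : ℝ) ^ (k + 1)) := by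
            refine mul_le_mul_of_nonneg_left ?_ (by positivity)
            rw [pow_succ, show 2 * ((1 / 2 : ℝ) ^ k * (1 / 2)) = (1 / 2 : ℝ) ^ k by ring,
              one_div, inv_pow]
            exact inv_anti₀ (by positivity) (pow_le_pow_left₀ (by norm_num) h2N _)
  have h3 : ∑' p : Σ _ : V, ℕ, (if p.2 = 0 then tm N s p else 0) = PS N Set.univ s := by
    have h4 : ∑' v : V, (if (i v).2 = 0 then tm N s (i v) else 0) =
        ∑' p : Σ _ : V, ℕ, (if p.2 = 0 then tm N s p else 0) := by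
      refine hi.tsum_eq (f := fun p : Σ _ : V, ℕ => if p.2 = 0 then tm N s p else (0 : ℝ)) ?_
      intro p hp
      rw [Function.mem_support] at hp
      have : p.2 = 0 := by
        by_contra h0
        exact hp (if_neg h0)
      refine ⟨p.1, ?_⟩
      obtain ⟨v, k⟩ := p
      simp only at this
      subst this
      rfl
    rw [← h4, PS, tsum_univ fun v => Real.log (N v) * (N v : ℝ) ^ (-s)]
    refine tsum_congr fun v => ?_
    simp [i, tm]
  rw [← h3, ← h1.tsum_add hp']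
  exact Summable.tsum_le_tsum h2 ht (h1.add hp')

end Pool.Agent.H98.C1
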