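import Mathlib
import Pool.Agent.H98.C1.Sums

/-!
# The upper bound for the primes whose class lies in a subgroup
-/

open Finset Filter Topology

namespace Pool.Agent.H98.C1

variable {V Q : Type*} [AddCommGroup Q] {N : V → ℕ} {c : V → Q} [Fintype Q]

theorem Hyp.upper (h : Hyp N c) (H : AddSubgroup Q) :
    ∃ μ : ℝ, μ ≤ 1 ∧ ∃ F : ℝ → ℝ, Tendsto (fun s => (s - 1) * F s) (𝓝[>] 1) (𝓝 μ) ∧
      ∀ s, 1 < s → (H.index : ℝ) * PS N {v | c v ∈ H} s ≤ F s := by
  classical
  have : Fintype (Q ⧸ H) := Fintype.ofFinite _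
  let π : Q →+ Q ⧸ H := QuotientAddGroup.mk' H
  have hπ : Function.Surjective π := QuotientAddGroup.mk'_surjective H
  let pull : AddChar (Q ⧸ H) ℂ → AddChar Q ℂ := fun χ => χ.compAddMonoidHom π
  have hpull : ∀ χ, pull χ = 0 → χ = 0 := by
    intro χ hχ
    ext q
    obtain ⟨q, rfl⟩ := hπ q
    have := DFunLike.congr_fun hχ q
    simpa [pull] using this
  choose j hj0 hj1 hjlim using fun χ => h.tendsto_Lam (pull χ)
  refine ⟨(∑ χ, (1 - (j χ : ℂ))).re, ?_, fun s => (∑ χ, Lam N c (pull χ) (s : ℂ)).re, ?_, ?_⟩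
  · rw [Complex.re_sum, ← Finset.add_sum_erase _ _ (Finset.mem_univ (0 : AddChar (Q ⧸ H) ℂ))]
    have h1 : pull 0 = 0 := by
      ext q
      simp [pull]
    rw [hj0 0 h1]
    have h2 : ∑ χ ∈ Finset.univ.erase (0 : AddChar (Q ⧸ H) ℂ), (1 - (j χ : ℂ)).re ≤ 0 := by
      refine Finset.sum_nonpos fun χ hχ => ?_
      have h3 := hj1 χ (fun h4 => Finset.ne_of_mem_erase hχ (hpull χ h4))
      have h5 : (1 : ℝ) ≤ j χ := by exact_mod_cast h3
      rw [Complex.sub_re, Complex.one_re, Complex.natCast_re]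
      linarith
    have h6 : (1 - ((0 : ℕ) : ℂ)).re = 1 := by simp
    linarith
  · have h1 : Tendsto (fun s : ℝ => ∑ χ, ((s : ℂ) - 1) * Lam N c (pull χ) (s : ℂ)) (𝓝[>] 1)
        (𝓝 (∑ χ, (1 - (j χ : ℂ)))) := tendsto_finsetSum _ fun χ _ => hjlim χ
    refine ((Complex.continuous_re.tendsto _).comp h1).congr fun s => ?_
    rw [Function.comp_apply, ← Finset.mul_sum, ← Complex.ofReal_one, ← Complex.ofReal_sub,
      Complex.re_ofReal_mul]
  · intro s hs
    have h1 : ∑ χ, Lam N c (pull χ) (s : ℂ) =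
        ((∑' p : Σ _ : V, ℕ, tm N s p *
          (if (p.2 + 1) • π (c p.1) = 0 then (H.index : ℝ) else 0) : ℝ) : ℂ) := by
      simp_rw [Lam_eq]
      rw [← Summable.tsum_finsetSum (fun χ _ => h.summable_lam (pull χ) hs), Complex.ofReal_tsum]
      refine tsum_congr fun p => ?_
      rw [← Finset.mul_sum, Complex.ofReal_mul]
      congr 1
      have h2 : ∀ χ : AddChar (Q ⧸ H) ℂ, pull χ ((p.2 + 1) • c p.1) =
          χ ((p.2 + 1) • π (c p.1)) := by
        intro χ
        simp only [pull, AddChar.compAddMonoidHom_apply, map_nsmul]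
      simp_rw [h2]
      rw [AddChar.sum_apply_eq_ite]
      rw [AddSubgroup.index_eq_card, Nat.card_eq_fintype_card]
      split_ifs
      · simp
      · simp
    beta_reduce
    rw [h1, Complex.ofReal_re]
    have hsm : Summable fun p : Σ _ : V, ℕ => tm N s p *
        (if (p.2 + 1) • π (c p.1) = 0 then (H.index : ℝ) else 0) := by
      refine Summable.of_nonneg_of_le (fun p => ?_) (fun p => ?_)
        ((h.summable_tm hs).mul_right (H.index : ℝ))
      · refine mul_nonneg (tm_nonneg s p) ?_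
        split_ifs
        · positivity
        · exact le_rfl
      · refine mul_le_mul_of_nonneg_left ?_ (tm_nonneg s p)
        split_ifs
        · exact le_rfl
        · positivity
    let i : {v | c v ∈ H} → Σ _ : V, ℕ := fun v => ⟨v, 0⟩
    have hi : Function.Injective i := fun a b hab => by
      simp only [i, Sigma.mk.injEq, heq_eq_eq, and_true] at hab
      exact Subtype.ext hab
    have h3 := tsum_comp_le_tsum_of_inj hsm (fun p => mul_nonneg (tm_nonneg s p) (by
      split_ifs
      · positivity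
      · exact le_rfl)) hi
    refine le_trans (le_of_eq ?_) h3
    rw [PS, ← tsum_mul_left]
    refine tsum_congr fun v => ?_
    have h4 : ((i v).2 + 1) • π (c (i v).1) = 0 := by
      change (0 + 1) • π (c v) = 0
      rw [zero_add, one_smul]
      exact (QuotientAddGroup.eq_zero_iff _).2 v.2
    rw [Function.comp_apply, if_pos h4]
    simp only [i, tm, zero_add, pow_one]
    ring

end Pool.Agent.H98.C1
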