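import Mathlib
import Pool.Agent.H98.C1.Upper

/-!
# Comparison of the primes of two fields
-/

open Finset Filter Topology

namespace Pool.Agent.H98.C1

variable {V Q : Type*} [AddCommGroup Q] {N : V → ℕ} {c : V → Q} [Fintype Q]
variable {W R : Type*} [AddCommGroup R] {M : W → ℕ} {d : W → R} [Fintype R]

theorem PS_nonneg (S : Set V) (s : ℝ) : 0 ≤ PS N S s :=
  tsum_nonneg fun _ => mul_nonneg (Real.log_natCast_nonneg _) (by positivity)

omit [Fintype Q] [Fintype R] in
/-- If the primes in `S` map to primes of the same norm in `T` with fibres of at most `n`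
elements, then the sum over `S` is at most `n` times the sum over `T`. -/
theorem PS_le (h : Hyp N c) (hW : Hyp M d) (S : Set W) (T : Set V) (n : ℕ) (p : S → T)
    (hp : ∀ w, M w.1 = N (p w).1) (hfin : ∀ v, {w | p w = v}.Finite ∧ {w | p w = v}.ncard ≤ n)
    {s : ℝ} (hs : 1 < s) : PS M S s ≤ n * PS N T s := by
  classical
  have h1 : Summable fun w : S => Real.log (M w) * (M w : ℝ) ^ (-s) :=
    (hW.summable_prime hs).subtype S
  have h2 : Summable fun v : T => Real.log (N v) * (N v : ℝ) ^ (-s) :=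
    (h.summable_prime hs).subtype T
  have h3 := (Equiv.sigmaFiberEquiv p).summable_iff.2 h1
  have h4 : PS M S s = ∑' v : T, ∑' w : {w // p w = v},
      Real.log (M w.1) * (M w.1 : ℝ) ^ (-s) := by
    rw [PS, ← (Equiv.sigmaFiberEquiv p).tsum_eq]
    exact h3.tsum_sigma
  have h5 : ∀ v : T, ∑' w : {w // p w = v}, Real.log (M w.1) * (M w.1 : ℝ) ^ (-s) ≤
      n * (Real.log (N v) * (N v : ℝ) ^ (-s)) := by
    intro v
    have h6 : ∀ w : {w // p w = v}, Real.log (M w.1) * (M w.1 : ℝ) ^ (-s) =
        Real.log (N v) * (N v : ℝ) ^ (-s) := by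
      intro w
      rw [hp w.1, w.2]
    simp_rw [h6]
    have : Finite {w // p w = v} := (hfin v).1
    have : Fintype {w // p w = v} := Fintype.ofFinite _
    rw [tsum_fintype, Finset.sum_const, nsmul_eq_mul]
    refine mul_le_mul_of_nonneg_right ?_ (mul_nonneg (Real.log_natCast_nonneg _) (by positivity))
    have h7 := (hfin v).2
    rw [← Nat.card_coe_set_eq] at h7
    rw [Finset.card_univ, ← Nat.card_eq_fintype_card]
    exact_mod_cast h7
  rw [h4, PS, ← tsum_mul_left]
  exact Summable.tsum_le_tsum h5 h3.sigma (h2.mul_left _)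

omit [Fintype R] in
theorem PS_add_compl (hW : Hyp M d) (S : Set W) {s : ℝ} (hs : 1 < s) :
    PS M Set.univ s = PS M S s + PS M Sᶜ s := by
  have h1 := hW.summable_prime hs
  rw [PS, tsum_univ fun w => Real.log (M w) * (M w : ℝ) ^ (-s), PS, PS,
    (h1.subtype S).tsum_add_tsum_compl (h1.subtype Sᶜ)]

/-- The abstract form of the universal norm index inequality. -/
theorem index_le (h : Hyp N c) (hW : Hyp M d) (H : AddSubgroup Q) (n : ℕ) (S : Set W)
    (p : S → {v | c v ∈ H}) (hp : ∀ w, M w.1 = N (p w).1)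
    (hfin : ∀ v, {w | p w = v}.Finite ∧ {w | p w = v}.ncard ≤ n)
    (hbad : ∃ C : ℝ, ∀ s : ℝ, 1 < s → PS M Sᶜ s ≤ C) : H.index ≤ n := by
  obtain ⟨μ, hμ, F, hF, hle⟩ := h.upper H
  obtain ⟨C, hC⟩ := hbad
  obtain ⟨C', hC'⟩ := hW.exists_bound
  have h1 := hW.tendsto_tm.const_mul (H.index : ℝ)
  have h2 : Tendsto (fun s : ℝ => (n : ℝ) * ((s - 1) * F s) +
      (s - 1) * ((H.index : ℝ) * (C + C'))) (𝓝[>] 1) (𝓝 ((n : ℝ) * μ + 0)) := by
    refine (hF.const_mul (n : ℝ)).add ?_
    have h3 : Continuous fun s : ℝ => (s - 1) * ((H.index : ℝ) * (C + C')) := by fun_prop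
    have h4 := h3.tendsto 1
    simp only [sub_self, zero_mul] at h4
    exact h4.mono_left nhdsWithin_le_nhds
  have h5 : (H.index : ℝ) * 1 ≤ (n : ℝ) * μ + 0 := by
    refine le_of_tendsto_of_tendsto h1 h2 ?_
    filter_upwards [self_mem_nhdsWithin] with s hs
    have hs1 : (1 : ℝ) < s := hs
    have h6 : ∑' p, tm M s p ≤ n * PS N {v | c v ∈ H} s + (C + C') := by
      have h7 := hC' s hs1
      rw [PS_add_compl hW S hs1] at h7
      have h8 := PS_le h hW S {v | c v ∈ H} n p hp hfin hs1
      have h9 := hC s hs1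
      linarith
    have h10 : (H.index : ℝ) * ∑' p, tm M s p ≤
        n * ((H.index : ℝ) * PS N {v | c v ∈ H} s) + (H.index : ℝ) * (C + C') := by
      calc (H.index : ℝ) * ∑' p, tm M s p
          ≤ (H.index : ℝ) * (n * PS N {v | c v ∈ H} s + (C + C')) :=
            mul_le_mul_of_nonneg_left h6 (by positivity)
        _ = _ := by ring
    have h11 : (n : ℝ) * ((H.index : ℝ) * PS N {v | c v ∈ H} s) ≤ n * F s :=
      mul_le_mul_of_nonneg_left (hle s hs1) (by positivity)
    calc (H.index : ℝ) * ((s - 1) * ∑' p, tm M s p)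
        = (s - 1) * ((H.index : ℝ) * ∑' p, tm M s p) := by ring
      _ ≤ (s - 1) * (n * F s + (H.index : ℝ) * (C + C')) :=
          mul_le_mul_of_nonneg_left (by linarith) (by linarith)
      _ = _ := by ring
  have h12 : (H.index : ℝ) ≤ n := by
    have : (n : ℝ) * μ ≤ n * 1 := mul_le_mul_of_nonneg_left hμ (by positivity)
    linarith
  exact_mod_cast h12

/-- If every prime of `V` has `k` primes of `W` of the same norm above it, then `k ≤ 1`. -/
theorem le_one_of_injective (h : Hyp N c) (hW : Hyp M d) (k : ℕ) (q : V × Fin k → W)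
    (hq : Function.Injective q) (hM : ∀ x, M (q x) = N x.1) : k ≤ 1 := by
  classical
  obtain ⟨C, hC⟩ := h.exists_bound
  have h1 := h.tendsto_tm.const_mul (k : ℝ)
  have h2 : Tendsto (fun s : ℝ => (s - 1) * ∑' p, tm M s p + (s - 1) * (k * C)) (𝓝[>] 1)
      (𝓝 (1 + 0)) := by
    refine hW.tendsto_tm.add ?_
    have h3 : Continuous fun s : ℝ => (s - 1) * ((k : ℝ) * C) := by fun_prop
    have h4 := h3.tendsto 1
    simp only [sub_self, zero_mul] at h4
    exact h4.mono_left nhdsWithin_le_nhds
  have h5 : (k : ℝ) * 1 ≤ 1 + 0 := by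
    refine le_of_tendsto_of_tendsto h1 h2 ?_
    filter_upwards [self_mem_nhdsWithin] with s hs
    have hs1 : (1 : ℝ) < s := hs
    have hV := h.summable_prime hs1
    have h6 : (k : ℝ) * PS N Set.univ s ≤ ∑' p, tm M s p := by
      have h7 : Summable fun x : V × Fin k => Real.log (N x.1) * (N x.1 : ℝ) ^ (-s) := by
        have h8 := (hW.summable_prime hs1).comp_injective hq
        refine h8.congr fun x => ?_
        rw [Function.comp_apply, hM]
      have h9 : ∑' x : V × Fin k, Real.log (N x.1) * (N x.1 : ℝ) ^ (-s) =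
          k * PS N Set.univ s := by
        rw [h7.tsum_prod, PS, tsum_univ fun v => Real.log (N v) * (N v : ℝ) ^ (-s),
          ← tsum_mul_left]
        refine tsum_congr fun v => ?_
        rw [tsum_fintype]
        change ∑ _b : Fin k, Real.log (N v) * (N v : ℝ) ^ (-s) = _
        rw [Finset.sum_const, Finset.card_univ, Fintype.card_fin, nsmul_eq_mul]
      rw [← h9]
      let i : V × Fin k → Σ _ : W, ℕ := fun x => ⟨q x, 0⟩
      have hi : Function.Injective i := fun a b hab => by
        simp only [i, Sigma.mk.injEq, heq_eq_eq, and_true] at hab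
        exact hq hab
      have h10 := tsum_comp_le_tsum_of_inj (hW.summable_tm hs1) (tm_nonneg s) hi
      refine le_trans (le_of_eq ?_) h10
      refine tsum_congr fun x => ?_
      rw [Function.comp_apply]
      simp only [i, tm, zero_add, pow_one, hM]
    have h11 := hC s hs1
    have h12 : (k : ℝ) * ∑' p, tm N s p ≤ ∑' p, tm M s p + k * C := by
      have : (k : ℝ) * ∑' p, tm N s p ≤ k * (PS N Set.univ s + C) :=
        mul_le_mul_of_nonneg_left h11 (by positivity)
      linarith
    calc (k : ℝ) * ((s - 1) * ∑' p, tm N s p) = (s - 1) * (k * ∑' p, tm N s p) := by ring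
      _ ≤ (s - 1) * (∑' p, tm M s p + k * C) :=
          mul_le_mul_of_nonneg_left h12 (by linarith)
      _ = _ := by ring
  have h13 : (k : ℝ) ≤ 1 := by linarith
  exact_mod_cast h13

end Pool.Agent.H98.C1
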