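import Mathlib
import Pool.Agent.H98.C1.Compare
import Pool.Agent.H29.C3.IdvA
import Pool.Agent.H37.HK.ArInv

/-!
# Effective divisors prime to `m`, integral ideals and the ray class group
-/

open NumberField IsDedekindDomain Module Finset
open Pool.Agent.H31.CF H29.C3 H37.HK
open scoped nonZeroDivisors Pointwise

namespace Pool.Agent.H98.C1

set_option linter.unusedSectionVars false

variable {F : Type} [Field F] [NumberField F] (m : Ideal (𝓞 F))

/-- The primes not dividing `m`. -/
abbrev Vm : Type := {v : HeightOneSpectrum (𝓞 F) // ¬ m ≤ v.asIdeal}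

/-- The ray class group. -/
abbrev RC : Type := Cop m ⧸ (Pm m).addSubgroupOf (Cop m)

/-- The norm of a prime. -/
noncomputable def Nv (v : Vm m) : ℕ := Ideal.absNorm v.1.asIdeal

/-- The divisor of a prime. -/
noncomputable def sng (v : Vm m) : Cop m :=
  ⟨Finsupp.single v.1 1, by
    classical
    intro w hw
    rw [Finsupp.single_apply, if_neg]
    rintro h
    exact v.2 (h ▸ hw)⟩

/-- Effective divisors as divisors. -/
noncomputable def toCop : (Vm m →₀ ℕ) →+ Cop m :=
  Finsupp.liftAddHom fun v => multiplesHom (Cop m) (sng m v)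

/-- The ray class of a prime. -/
noncomputable def cv (v : Vm m) : RC m := QuotientAddGroup.mk (sng m v)

@[simp] theorem toCop_single (v : Vm m) (k : ℕ) : toCop m (Finsupp.single v k) = k • sng m v := by
  simp [toCop]

theorem cl_cv (D : Vm m →₀ ℕ) : cl (cv m) D = QuotientAddGroup.mk (toCop m D) := by
  have h : cl (cv m) = (QuotientAddGroup.mk' _).comp (toCop m) := by
    ext v
    simp [cv]
  rw [h]
  rfl

theorem coe_toCop (D : Vm m →₀ ℕ) (v : Vm m) : (toCop m D : Dv F) v.1 = D v := by
  classical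
  induction D using Finsupp.induction_linear with
  | zero => simp
  | add D D' h h' =>
    rw [map_add, AddSubgroup.coe_add, Finsupp.add_apply, h, h', Finsupp.add_apply, Nat.cast_add]
  | single w k =>
    rw [toCop_single, AddSubgroup.coe_nsmul, Finsupp.smul_apply]
    by_cases hw : w = v
    · subst hw
      simp [sng]
    · have hw' : w.1 ≠ v.1 := fun h => hw (Subtype.ext h)
      simp [sng, hw, hw']

/-- The ideal of an effective divisor. -/
noncomputable def idl (D : Vm m →₀ ℕ) : Ideal (𝓞 F) := D.prod fun v k => v.1.asIdeal ^ k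

@[simp] theorem idl_zero : idl m 0 = 1 := by simp [idl]

theorem idl_add (D D' : Vm m →₀ ℕ) : idl m (D + D') = idl m D * idl m D' :=
  Finsupp.prod_add_index' (by simp) (fun a b c => pow_add _ _ _)

@[simp] theorem idl_single (v : Vm m) (k : ℕ) :
    idl m (Finsupp.single v k) = v.1.asIdeal ^ k :=
  Finsupp.prod_single_index (by simp)

theorem idl_ne_bot (D : Vm m →₀ ℕ) : idl m D ≠ ⊥ :=
  Finset.prod_ne_zero_iff.2 fun v _ => pow_ne_zero _ v.1.ne_bot

theorem absNorm_idl (D : Vm m →₀ ℕ) : Ideal.absNorm (idl m D) = nrm (Nv m) D := by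
  rw [idl, Finsupp.prod, map_prod, nrm, Finsupp.prod]
  refine Finset.prod_congr rfl fun v _ => ?_
  rw [map_pow, Nv]

theorem idv_idl (D : Vm m →₀ ℕ) : idv (idl m D) = (toCop m D : Dv F) := by
  induction D using Finsupp.induction_linear with
  | zero => rw [idl_zero, idv_one, map_zero]; rfl
  | add D D' h h' =>
    rw [idl_add, idv_mul _ _ (idl_ne_bot m D) (idl_ne_bot m D'), h, h', map_add,
      AddSubgroup.coe_add]
  | single w k =>
    rw [idl_single, idv_pow _ w.1.ne_bot, idv_prime, toCop_single, AddSubgroup.coe_nsmul]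
    rfl

theorem isCoprime_prime (v : Vm m) : IsCoprime v.1.asIdeal m := by
  rw [Ideal.isCoprime_iff_sup_eq]
  have hmax : v.1.asIdeal.IsMaximal := v.1.isMaximal
  by_contra h
  exact v.2 (le_sup_right.trans (hmax.eq_of_le h le_sup_left).ge)

theorem isCoprime_idl (D : Vm m →₀ ℕ) : IsCoprime (idl m D) m := by
  induction D using Finsupp.induction_linear with
  | zero => rw [idl_zero]; exact isCoprime_one_left
  | add D D' h h' => rw [idl_add]; exact h.mul_left h'
  | single w k => rw [idl_single]; exact (isCoprime_prime m w).pow_left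

theorem idl_injective : Function.Injective (idl m) := by
  intro D D' h
  ext v
  have h1 := congrArg (fun x : Dv F => x v.1) (congrArg idv h)
  simp only [idv_idl, coe_toCop] at h1
  exact_mod_cast h1

theorem exists_idl (I : Ideal (𝓞 F)) (hI : I ≠ ⊥) (hc : IsCoprime I m) : ∃ D, idl m D = I := by
  revert hc
  refine ideal_induction (P := fun I => IsCoprime I m → ∃ D, idl m D = I) ?_ ?_ I hI
  · intro _
    exact ⟨0, idl_zero m⟩
  · intro v I hI ih hc
    obtain ⟨D, hD⟩ := ih (hc.of_mul_left_right)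
    have hv : ¬ m ≤ v.asIdeal := by
      intro hle
      have h1 := hc.of_mul_left_left
      rw [Ideal.isCoprime_iff_sup_eq, sup_eq_left.2 hle] at h1
      exact v.isPrime.ne_top h1
    refine ⟨Finsupp.single ⟨v, hv⟩ 1 + D, ?_⟩
    rw [idl_add, idl_single, pow_one, hD]

/-- Effective divisors prime to `m` correspond to integral ideals prime to `m`. -/
noncomputable def idlEquiv : (Vm m →₀ ℕ) ≃ {I : Ideal (𝓞 F) // I ≠ ⊥ ∧ IsCoprime I m} :=
  Equiv.ofBijective (fun D => ⟨idl m D, idl_ne_bot m D, isCoprime_idl m D⟩)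
    ⟨fun D D' h => idl_injective m (congrArg Subtype.val h), fun I => by
      obtain ⟨D, hD⟩ := exists_idl m I.1 I.2.1 I.2.2
      exact ⟨D, Subtype.ext hD⟩⟩

theorem idv_injective {I J : Ideal (𝓞 F)} (hI : I ≠ ⊥) (hJ : J ≠ ⊥) (h : idv I = idv J) :
    I = J := by
  have hI1 : IsCoprime I (⊤ : Ideal (𝓞 F)) := by
    rw [Ideal.isCoprime_iff_sup_eq, sup_top_eq]
  have hJ1 : IsCoprime J (⊤ : Ideal (𝓞 F)) := by
    rw [Ideal.isCoprime_iff_sup_eq, sup_top_eq]
  obtain ⟨D, rfl⟩ := exists_idl ⊤ I hI hI1
  obtain ⟨D', rfl⟩ := exists_idl ⊤ J hJ hJ1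
  congr 1
  ext v
  have h1 := congrArg (fun x : Dv F => x v.1) h
  simp only [idv_idl, coe_toCop] at h1
  exact_mod_cast h1

end Pool.Agent.H98.C1
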