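import Mathlib
import Pool.Agent.H98.C1.Bridge

/-!
# Ray equivalence of ideals and the ray class group
-/

open NumberField IsDedekindDomain Module Finset
open Pool.Agent.H31.CF H29.C3 H37.HK
open scoped nonZeroDivisors Pointwise

namespace Pool.Agent.H98.C1

set_option linter.unusedSectionVars false

variable {F : Type} [Field F] [NumberField F] (m : Ideal (𝓞 F))

/-- The integers `≡ 1 mod m`, nonzero and totally positive. -/
def IsRay (α : 𝓞 F) : Prop := α ≠ 0 ∧ α - 1 ∈ m ∧ TP (α : F)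

variable {m}

theorem IsRay.mul {α β : 𝓞 F} (hα : IsRay m α) (hβ : IsRay m β) : IsRay m (α * β) := by
  refine ⟨mul_ne_zero hα.1 hβ.1, ?_, fun φ => ?_⟩
  · have h : α * β - 1 = α * (β - 1) + (α - 1) := by ring
    rw [h]
    exact m.add_mem (m.mul_mem_left _ hβ.2.1) hα.2.1
  · have h : ((α * β : 𝓞 F) : F) = (α : F) * (β : F) := by push_cast; rfl
    rw [h, map_mul]
    exact mul_pos (hα.2.2 φ) (hβ.2.2 φ)

theorem isRay_one : IsRay m (1 : 𝓞 F) := by
  refine ⟨one_ne_zero, by simp, fun φ => ?_⟩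
  have h : ((1 : 𝓞 F) : F) = 1 := by push_cast; rfl
  rw [h, map_one]
  exact one_pos

theorem dv_coe_mul {α β : 𝓞 F} (hα : α ≠ 0) (hβ : β ≠ 0) :
    dv ((α * β : 𝓞 F) : F) = dv (α : F) + dv (β : F) := by
  have h : ((α * β : 𝓞 F) : F) = (α : F) * (β : F) := by push_cast; rfl
  rw [h]
  refine dv_mul _ _ ?_ ?_
  · exact_mod_cast hα
  · exact_mod_cast hβ

theorem IsRay.mem {α : 𝓞 F} (hα : IsRay m α) : dv (α : F) ∈ Pm m :=
  AddSubgroup.subset_closure ⟨α, hα.1, hα.2.1, hα.2.2, rfl⟩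

/-- Elements of `Pm m` are differences of divisors of ray elements. -/
theorem exists_of_mem_Pm {x : Dv F} (hx : x ∈ Pm m) :
    ∃ α β : 𝓞 F, IsRay m α ∧ IsRay m β ∧ x = dv (α : F) - dv (β : F) := by
  have h1 : dv ((1 : 𝓞 F) : F) = 0 := by
    have h := dv_coe_mul (F := F) (one_ne_zero) (one_ne_zero)
    rw [one_mul] at h
    simpa using h
  induction hx using AddSubgroup.closure_induction with
  | mem x hx =>
    obtain ⟨α, h0, h2, h3, rfl⟩ := hx
    exact ⟨α, 1, ⟨h0, h2, h3⟩, isRay_one, by rw [h1, sub_zero]⟩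
  | zero => exact ⟨1, 1, isRay_one, isRay_one, by rw [sub_self]⟩
  | add x y _ _ hx hy =>
    obtain ⟨α, β, hα, hβ, rfl⟩ := hx
    obtain ⟨γ, δ, hγ, hδ, rfl⟩ := hy
    refine ⟨α * γ, β * δ, hα.mul hγ, hβ.mul hδ, ?_⟩
    rw [dv_coe_mul hα.1 hγ.1, dv_coe_mul hβ.1 hδ.1]
    abel
  | neg x _ hx =>
    obtain ⟨α, β, hα, hβ, rfl⟩ := hx
    exact ⟨β, α, hβ, hα, by abel⟩

theorem span_ne_bot {α : 𝓞 F} (hα : α ≠ 0) : Ideal.span {α} ≠ ⊥ := by
  rwa [ne_eq, Ideal.span_singleton_eq_bot]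

/-- Ray equivalence in terms of divisors. -/
theorem rayEquiv_iff {T : Finset (F →+* ℝ)} (hT : ∀ σ, σ ∈ T) {a b : Ideal (𝓞 F)} (ha : a ≠ ⊥)
    (hb : b ≠ ⊥) : RayEquiv m T a b ↔ idv a - idv b ∈ Pm m := by
  constructor
  · rintro ⟨α, β, hα0, hβ0, hα, hβ, hpos, hab⟩
    have h1 := congrArg idv hab
    rw [idv_mul _ _ (span_ne_bot hα0) ha, idv_mul _ _ (span_ne_bot hβ0) hb, ← dv_int,
      ← dv_int] at h1
    have h2 : idv a - idv b = dv ((α * β : 𝓞 F) : F) - dv ((α * α : 𝓞 F) : F) := by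
      rw [dv_coe_mul hα0 hβ0, dv_coe_mul hα0 hα0]
      have h3 : idv a = dv (β : F) + idv b - dv (α : F) := by
        rw [← h1]
        abel
      rw [h3]
      abel
    rw [h2]
    refine (Pm m).sub_mem ?_ ?_
    · refine IsRay.mem ⟨mul_ne_zero hα0 hβ0, ?_, fun φ => hpos φ (hT φ)⟩
      have h : α * β - 1 = α * (β - 1) + (α - 1) := by ring
      rw [h]
      exact m.add_mem (m.mul_mem_left _ hβ) hα
    · refine IsRay.mem ⟨mul_ne_zero hα0 hα0, ?_, fun φ => ?_⟩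
      · have h : α * α - 1 = α * (α - 1) + (α - 1) := by ring
        rw [h]
        exact m.add_mem (m.mul_mem_left _ hα) hα
      · have h : ((α * α : 𝓞 F) : F) = (α : F) * (α : F) := by push_cast; rfl
        rw [h, map_mul]
        refine mul_self_pos.2 ?_
        rw [ne_eq, map_eq_zero]
        exact_mod_cast hα0
  · intro h
    obtain ⟨α, β, hα, hβ, hx⟩ := exists_of_mem_Pm h
    refine ⟨β, α, hβ.1, hα.1, hβ.2.1, hα.2.1, fun σ _ => ?_, ?_⟩
    · have := (hβ.mul hα).2.2 σ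
      exact this
    · refine idv_injective (mul_ne_zero (span_ne_bot hβ.1) ha) (mul_ne_zero (span_ne_bot hα.1) hb)
        ?_
      rw [idv_mul _ _ (span_ne_bot hβ.1) ha, idv_mul _ _ (span_ne_bot hα.1) hb, ← dv_int,
        ← dv_int]
      have h3 : idv a = dv (α : F) - dv (β : F) + idv b := by
        rw [← hx]
        abel
      rw [h3]
      abel

theorem mk_eq_iff (x y : Cop m) :
    (QuotientAddGroup.mk x : RC m) = QuotientAddGroup.mk y ↔ (x : Dv F) - y ∈ Pm m := by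
  rw [QuotientAddGroup.eq_iff_sub_mem, AddSubgroup.mem_addSubgroupOf, AddSubgroup.coe_sub]

/-- Every ray class contains an effective divisor. -/
theorem exists_cl (hm : m ≠ ⊥) (q : RC m) : ∃ D, cl (cv m) D = q := by
  classical
  -- the classes of effective divisors form a subgroup
  have hneg : ∀ D : Vm m →₀ ℕ, ∃ D', cl (cv m) D' = -cl (cv m) D := by
    intro D
    obtain ⟨b, hb, hcb, γ, hγ0, hγ, hγT, hab⟩ :=
      exists_inverse m hm (idl m D) (idl_ne_bot m D) (isCoprime_idl m D)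
    obtain ⟨D', rfl⟩ := exists_idl m b hb hcb
    refine ⟨D', ?_⟩
    rw [eq_neg_iff_add_eq_zero, ← map_add, cl_cv, ← QuotientAddGroup.mk_zero, mk_eq_iff,
      ← idv_idl, idl_add, mul_comm, hab, ← dv_int, AddSubgroup.coe_zero, sub_zero]
    exact IsRay.mem ⟨hγ0, hγ, hγT⟩
  obtain ⟨x, rfl⟩ := QuotientAddGroup.mk_surjective q
  have hx : ∃ D D' : Vm m →₀ ℕ, (x : Dv F) = toCop m D - toCop m D' := by
    let p : Vm m →₀ ℕ := (x : Dv F).comapDomain Subtype.val Subtype.val_injective.injOn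
      |>.mapRange Int.toNat rfl
    let n : Vm m →₀ ℕ := (-(x : Dv F)).comapDomain Subtype.val Subtype.val_injective.injOn
      |>.mapRange Int.toNat rfl
    refine ⟨p, n, ?_⟩
    ext v
    rw [Finsupp.sub_apply]
    by_cases hv : m ≤ v.asIdeal
    · rw [x.2 v hv, (toCop m p).2 v hv, (toCop m n).2 v hv, sub_zero]
    · have h1 := coe_toCop m p ⟨v, hv⟩
      have h2 := coe_toCop m n ⟨v, hv⟩
      simp only at h1 h2
      rw [h1, h2]
      simp only [p, n, Finsupp.mapRange_apply, Finsupp.comapDomain_apply, Finsupp.neg_apply]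
      omega
  obtain ⟨D, D', hDD⟩ := hx
  obtain ⟨D'', hD''⟩ := hneg D'
  refine ⟨D + D'', ?_⟩
  rw [map_add, hD'', ← sub_eq_add_neg, cl_cv, cl_cv, ← QuotientAddGroup.mk_sub, mk_eq_iff,
    AddSubgroup.coe_sub, ← hDD, sub_self]
  exact (Pm m).zero_mem

end Pool.Agent.H98.C1
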