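import Mathlib
import Pool.Agent.H98.C1.Ray
import Pool.Agent.H97.Gol.Zeta
import Pool.Agent.H7.Artin.Sum

/-!
# The ray class group is finite; the analytic input for a ray class group
-/

open NumberField IsDedekindDomain Module Finset Filter Topology
open Pool.Agent.H31.CF H29.C3 H37.HK
open scoped nonZeroDivisors Pointwise

namespace Pool.Agent.H98.C1

set_option linter.unusedSectionVars false

variable {F : Type} [Field F] [NumberField F]

/-- Part B for the modulus `m` and all real places. -/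
def PZ (m : Ideal (𝓞 F)) : Prop :=
  ∃ T : Finset (F →+* ℝ), (∀ σ, σ ∈ T) ∧ ∃ ρ : ℝ, 0 < ρ ∧
    ∀ a₁ : Ideal (𝓞 F), a₁ ≠ ⊥ → IsCoprime a₁ m →
      ∃ Z : ℂ → ℂ, DifferentiableOn ℂ Z {1}ᶜ ∧
        Tendsto (fun s => (s - 1) * Z s) (𝓝[≠] 1) (𝓝 (ρ : ℂ)) ∧
        ∀ s : ℂ, 1 < s.re →
          HasSum (fun a : rayClass m T a₁ => ((Ideal.absNorm (a : Ideal (𝓞 F)) : ℕ) : ℂ) ^ (-s))
            (Z s)

variable {m : Ideal (𝓞 F)}

theorem exists_Z (hm : m ≠ ⊥) (h : PZ m) : ∃ ρ : ℝ, 0 < ρ ∧ ∃ Z : RC m → ℂ → ℂ,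
    (∀ q, DifferentiableOn ℂ (Z q) {1}ᶜ) ∧
    (∀ q, Tendsto (fun s => (s - 1) * Z q s) (𝓝[≠] 1) (𝓝 (ρ : ℂ))) ∧
    ∀ q s, 1 < s.re →
      HasSum (fun D : {D : Vm m →₀ ℕ // cl (cv m) D = q} => (nrm (Nv m) D.1 : ℂ) ^ (-s))
        (Z q s) := by
  obtain ⟨T, hT, ρ, hρ, hZ⟩ := h
  refine ⟨ρ, hρ, ?_⟩
  have h1 : ∀ q : RC m, ∃ Z : ℂ → ℂ, DifferentiableOn ℂ Z {1}ᶜ ∧
      Tendsto (fun s => (s - 1) * Z s) (𝓝[≠] 1) (𝓝 (ρ : ℂ)) ∧
      ∀ s : ℂ, 1 < s.re →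
        HasSum (fun D : {D : Vm m →₀ ℕ // cl (cv m) D = q} => (nrm (Nv m) D.1 : ℂ) ^ (-s))
          (Z s) := by
    intro q
    obtain ⟨D₁, hD₁⟩ := exists_cl hm q
    obtain ⟨Z, hZ1, hZ2, hZ3⟩ := hZ (idl m D₁) (idl_ne_bot m D₁) (isCoprime_idl m D₁)
    refine ⟨Z, hZ1, hZ2, fun s hs => ?_⟩
    have key : ∀ D : Vm m →₀ ℕ, RayEquiv m T (idl m D) (idl m D₁) ↔ cl (cv m) D = q := by
      intro D
      rw [rayEquiv_iff hT (idl_ne_bot m D) (idl_ne_bot m D₁), idv_idl, idv_idl, ← hD₁, cl_cv,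
        cl_cv, mk_eq_iff]
    let e : {D : Vm m →₀ ℕ // cl (cv m) D = q} ≃ rayClass m T (idl m D₁) :=
      Equiv.ofBijective (fun D => ⟨idl m D.1, idl_ne_bot m D.1, isCoprime_idl m D.1,
        (key D.1).2 D.2⟩) ⟨fun D D' hDD => Subtype.ext (idl_injective m
          (congrArg Subtype.val hDD)), fun a => by
        obtain ⟨D, hD⟩ := exists_idl m a.1 a.2.1 a.2.2.1
        refine ⟨⟨D, (key D).1 ?_⟩, Subtype.ext hD⟩
        rw [hD]
        exact a.2.2.2⟩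
    refine HasSum.congr_fun (e.hasSum_iff.2 (hZ3 s hs)) fun D => ?_
    rw [Function.comp_apply]
    change _ = ((Ideal.absNorm (idl m D.1) : ℕ) : ℂ) ^ (-s)
    rw [absNorm_idl]
  choose Z hZ1 hZ2 hZ3 using h1
  exact ⟨Z, hZ1, hZ2, hZ3⟩

theorem hasSum_ideal {s : ℝ} (hs : 1 < s) :
    HasSum (fun I : Ideal (𝓞 F) => (Ideal.absNorm I : ℝ) ^ (-s)) (H97.Gol.Z F s) := by
  have h1 := (Pool.Agent.H7.Artin.summable_ideal F hs).hasSum
  have h2 := (Equiv.sigmaFiberEquiv (fun I : Ideal (𝓞 F) => Ideal.absNorm I)).hasSum_iff.2 h1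
  have h3 := h2.sigma (g := fun n : ℕ => (H76.idealCount F n : ℝ) * (n : ℝ) ^ (-s)) (fun n => by
    have : Finite {I : Ideal (𝓞 F) // Ideal.absNorm I = n} := Ideal.finite_setOfPred_absNorm_eq n
    have : Fintype {I : Ideal (𝓞 F) // Ideal.absNorm I = n} := Fintype.ofFinite _
    have h4 : (H76.idealCount F n : ℝ) * (n : ℝ) ^ (-s) =
        ∑ I : {I : Ideal (𝓞 F) // Ideal.absNorm I = n}, (n : ℝ) ^ (-s) := by
      rw [Finset.sum_const, Finset.card_univ, nsmul_eq_mul, ← Nat.card_eq_fintype_card]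
      rfl
    rw [h4]
    refine HasSum.congr_fun (hasSum_fintype _) fun I => ?_
    rw [Function.comp_apply]
    change (Ideal.absNorm I.1 : ℝ) ^ (-s) = _
    rw [I.2])
  have h5 : H97.Gol.Z F s = _ := (H97.Gol.summ F hs).hasSum.unique h3
  rw [h5]
  exact h1

theorem summable_nrm {s : ℝ} (hs : 1 < s) :
    Summable fun D : Vm m →₀ ℕ => (nrm (Nv m) D : ℝ) ^ (-s) := by
  have h1 := (hasSum_ideal (F := F) hs).summable.comp_injective (idl_injective m)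
  refine h1.congr fun D => ?_
  rw [Function.comp_apply, absNorm_idl]

theorem tot_le {s : ℝ} (hs : 1 < s) :
    ∑' D : Vm m →₀ ℕ, (nrm (Nv m) D : ℝ) ^ (-s) ≤ H97.Gol.Z F s := by
  have h1 := hasSum_ideal (F := F) hs
  have h2 := tsum_comp_le_tsum_of_inj h1.summable (fun I => by positivity) (idl_injective m)
  rw [h1.tsum_eq] at h2
  refine le_trans (le_of_eq (tsum_congr fun D => ?_)) h2
  rw [Function.comp_apply, absNorm_idl]

theorem two_le_Nv (v : Vm m) : 2 ≤ Nv m v := Pool.Agent.H7.Artin.two_le_absNorm F v.1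

/-- The ray class group is finite. -/
theorem finite_ray (hm : m ≠ ⊥) (h : PZ m) : Finite (RC m) := by
  classical
  obtain ⟨ρ, hρ, Z, hZ1, hZ2, hZ3⟩ := exists_Z hm h
  obtain ⟨C, hC0, hC⟩ := H97.Gol.Z_le F
  by_contra hinf
  rw [not_finite_iff_infinite] at hinf
  obtain ⟨k, hk⟩ := exists_nat_gt (C / ρ)
  obtain ⟨S, hS⟩ := Infinite.exists_subset_card_eq (RC m) k
  have h1 : Tendsto (fun s : ℝ => ∑ q ∈ S, (((s : ℂ) - 1) * Z q (s : ℂ)).re) (𝓝[>] 1)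
      (𝓝 (∑ q ∈ S, ρ)) := by
    refine tendsto_finsetSum _ fun q _ => ?_
    have h3 : Tendsto (fun s : ℝ => (s : ℂ)) (𝓝[>] 1) (𝓝[≠] (1 : ℂ)) := by
      refine tendsto_nhdsWithin_iff.2 ⟨?_, ?_⟩
      · have := Complex.continuous_ofReal.tendsto 1
        rw [Complex.ofReal_one] at this
        exact this.mono_left nhdsWithin_le_nhds
      · filter_upwards [self_mem_nhdsWithin] with s hs
        rw [Set.mem_compl_iff, Set.mem_singleton_iff]
        intro h6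
        have h7 : s = 1 := by exact_mod_cast h6
        have h8 : (1 : ℝ) < s := hs
        linarith
    exact (Complex.continuous_re.tendsto _).comp ((hZ2 q).comp h3)
  have h2 : ∑ q ∈ S, ρ ≤ C := by
    refine le_of_tendsto h1 ?_
    filter_upwards [hC, self_mem_nhdsWithin] with s hs hs1
    have hs1' : (1 : ℝ) < s := hs1
    have hsum := summable_nrm (m := m) hs1'
    have h4 := (Equiv.sigmaFiberEquiv (cl (cv m))).hasSum_iff.2 hsum.hasSum
    have h5 : ∀ q : RC m, HasSum (fun D : {D : Vm m →₀ ℕ // cl (cv m) D = q} =>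
        (nrm (Nv m) D.1 : ℝ) ^ (-s)) (Z q (s : ℂ)).re := by
      intro q
      have h6 := Complex.hasSum_re (hZ3 q (s : ℂ) (by simpa using hs1'))
      refine HasSum.congr_fun h6 fun D => ?_
      have h7 : (nrm (Nv m) D.1 : ℂ) ^ (-(s : ℂ)) = (((nrm (Nv m) D.1 : ℝ) ^ (-s) : ℝ) : ℂ) := by
        rw [Complex.ofReal_cpow (by positivity)]
        push_cast
        rfl
      rw [h7, Complex.ofReal_re]
    have h6 := h4.sigma h5
    have h7 : ∑ q ∈ S, (Z q (s : ℂ)).re ≤ ∑' D : Vm m →₀ ℕ, (nrm (Nv m) D : ℝ) ^ (-s) :=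
      sum_le_hasSum S (fun q _ => (h5 q).nonneg fun D => by positivity) h6
    have h8 := h7.trans ((tot_le hs1').trans hs)
    have h9 : ∑ q ∈ S, (((s : ℂ) - 1) * Z q (s : ℂ)).re = (s - 1) * ∑ q ∈ S, (Z q (s : ℂ)).re := by
      rw [Finset.mul_sum]
      refine Finset.sum_congr rfl fun q _ => ?_
      rw [← Complex.ofReal_one, ← Complex.ofReal_sub, Complex.re_ofReal_mul]
    rw [h9]
    have h10 : 0 < s - 1 := by linarith
    rw [le_div_iff₀ h10] at h8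
    linarith
  rw [Finset.sum_const, hS, nsmul_eq_mul] at h2
  rw [div_lt_iff₀ hρ] at hk
  linarith

/-- The analytic input for the ray class group. -/
theorem exists_hyp (hm : m ≠ ⊥) (h : PZ m) : Nonempty (Hyp (Nv m) (cv m)) := by
  obtain ⟨ρ, hρ, Z, hZ1, hZ2, hZ3⟩ := exists_Z hm h
  exact ⟨⟨two_le_Nv, fun σ hσ => summable_nrm hσ, Z, hZ1, ρ, hρ.ne', hZ2, hZ3⟩⟩

end Pool.Agent.H98.C1
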