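import Mathlib
import Pool.Agent.H98.C1.Fin
import Pool.Agent.H29.C3.NormD

/-!
# Norms of primes in an extension and the primes of higher residue degree
-/

open NumberField IsDedekindDomain Module Finset Filter Topology
open Pool.Agent.H31.CF H29.C3 H37.HK
open scoped nonZeroDivisors Pointwise

namespace Pool.Agent.H98.C1

set_option linter.unusedSectionVars false

variable (K L : Type) [Field K] [NumberField K] [Field L] [NumberField L] [Algebra K L]

theorem absNorm_over (w : HeightOneSpectrum (𝓞 L)) (v : HeightOneSpectrum (𝓞 K))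
    (hw : w.asIdeal.LiesOver v.asIdeal) :
    Ideal.absNorm w.asIdeal = Ideal.absNorm v.asIdeal ^ (w.asIdeal.inertiaDeg (𝓞 K)) := by
  have h1 : w.asIdeal.IsMaximal := w.isMaximal
  have h2 : v.asIdeal.IsMaximal := v.isMaximal
  have h3 := Ideal.relNorm_eq_pow_of_isMaximal (R := 𝓞 K) (S := 𝓞 L) w.asIdeal v.asIdeal
  rw [← Ideal.absNorm_relNorm (R := 𝓞 K) (S := 𝓞 L) w.asIdeal, h3, map_pow]

theorem primesOver_finite (v : HeightOneSpectrum (𝓞 K)) :
    (v.asIdeal.primesOver (𝓞 L)).Finite := by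
  have : v.asIdeal.IsPrime := v.isPrime
  exact Algebra.QuasiFinite.finite_primesOver v.asIdeal

variable [IsGalois K L]

theorem ncard_primesOver_le (v : HeightOneSpectrum (𝓞 K)) :
    (v.asIdeal.primesOver (𝓞 L)).ncard ≤ finrank K L := by
  have : v.asIdeal.IsPrime := v.isPrime
  have : IsGaloisGroup Gal(L/K) (𝓞 K) (𝓞 L) := IsGaloisGroup.of_isFractionRing _ _ _ K L
  have h1 := Ideal.ncard_primesOver_mul_ramificationIdxIn_mul_inertiaDegIn v.asIdeal (𝓞 L)
    Gal(L/K)
  rw [IsGalois.card_aut_eq_finrank] at h1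
  have h2 : 0 < finrank K L := finrank_pos
  rw [← h1]
  refine Nat.le_mul_of_pos_right _ (Nat.pos_of_ne_zero fun h0 => ?_)
  rw [h0, mul_zero] at h1
  omega

/-- The set of primes of `L` above `v`. -/
def ov (v : HeightOneSpectrum (𝓞 K)) : Set (HeightOneSpectrum (𝓞 L)) :=
  {w | w.asIdeal.LiesOver v.asIdeal}

theorem ov_image (v : HeightOneSpectrum (𝓞 K)) :
    HeightOneSpectrum.asIdeal '' (ov K L v) = v.asIdeal.primesOver (𝓞 L) := by
  ext P
  constructor
  · rintro ⟨w, hw, rfl⟩
    exact ⟨w.isPrime, hw⟩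
  · rintro ⟨hP, hP'⟩
    refine ⟨⟨P, hP, ?_⟩, hP', rfl⟩
    rintro rfl
    have h1 := hP'.over
    apply v.ne_bot
    rw [h1]
    exact Ideal.under_bot _ _

theorem ov_finite (v : HeightOneSpectrum (𝓞 K)) : (ov K L v).Finite := by
  have h := primesOver_finite K L v
  rw [← ov_image] at h
  exact h.of_finite_image (fun a _ b _ hab => HeightOneSpectrum.ext hab)

theorem ov_ncard (v : HeightOneSpectrum (𝓞 K)) :
    (ov K L v).ncard = (v.asIdeal.primesOver (𝓞 L)).ncard := by
  rw [← ov_image]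
  exact (Set.InjOn.ncard_image (fun a _ b _ hab => HeightOneSpectrum.ext hab)).symm

end Pool.Agent.H98.C1
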