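import Mathlib
import Pool.Agent.H98.C1.NormV

/-!
# The primes of residue degree at least two contribute a bounded amount
-/

open NumberField IsDedekindDomain Module Finset Filter Topology
open Pool.Agent.H31.CF H29.C3 H37.HK
open scoped nonZeroDivisors Pointwise

namespace Pool.Agent.H98.C1

set_option linter.unusedSectionVars false

/-- A summable function on the base is summable along a map with bounded fibres. -/
theorem summable_fibre {S T : Type*} (p : S → T) (n : ℕ)
    (hfin : ∀ v, {w | p w = v}.Finite ∧ {w | p w = v}.ncard ≤ n) (g : T → ℝ) (hg : ∀ v, 0 ≤ g v)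
    (hs : Summable g) : Summable fun w => g (p w) := by
  classical
  rw [← (Equiv.sigmaFiberEquiv p).summable_iff]
  have hnn : ∀ x, 0 ≤ ((fun w => g (p w)) ∘ (Equiv.sigmaFiberEquiv p)) x := fun x => hg _
  rw [summable_sigma_of_nonneg hnn]
  have hF : ∀ v, Finite {w // p w = v} := fun v => (hfin v).1
  refine ⟨fun v => ?_, ?_⟩
  · have := hF v
    exact Summable.of_finite
  · refine Summable.of_nonneg_of_le (fun v => tsum_nonneg fun x => hg _) (fun v => ?_)
      (hs.mul_left (n : ℝ))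
    have := hF v
    have : Fintype {w // p w = v} := Fintype.ofFinite _
    rw [tsum_fintype]
    have h1 : ∀ x : {w // p w = v}, ((fun w => g (p w)) ∘ (Equiv.sigmaFiberEquiv p)) ⟨v, x⟩ =
        g v := by
      intro x
      change g (p x.1) = g v
      rw [x.2]
    rw [Finset.sum_congr rfl fun x _ => h1 x, Finset.sum_const, nsmul_eq_mul]
    refine mul_le_mul_of_nonneg_right ?_ (hg v)
    have h7 := (hfin v).2
    rw [← Nat.card_coe_set_eq] at h7
    rw [Finset.card_univ, ← Nat.card_eq_fintype_card]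
    exact_mod_cast h7

variable (K L : Type) [Field K] [NumberField K] [Field L] [NumberField L] [Algebra K L]
  [IsGalois K L]

theorem summable_log_sq :
    Summable fun v : HeightOneSpectrum (𝓞 K) =>
      2 * (Real.log (Ideal.absNorm v.asIdeal) / (Ideal.absNorm v.asIdeal : ℝ) ^ 2) := by
  have h1 := (Pool.Agent.H7.Artin.summable_prime K (σ := 3 / 2) (by norm_num)).mul_left 4
  refine Summable.of_nonneg_of_le (fun v => ?_) (fun v => ?_) h1
  · have := Real.log_natCast_nonneg (Ideal.absNorm v.asIdeal)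
    positivity
  · have h2 := Pool.Agent.H7.Artin.two_le_absNorm K v
    have h3 : (0 : ℝ) < Ideal.absNorm v.asIdeal := by
      have : 0 < Ideal.absNorm v.asIdeal := by omega
      exact_mod_cast this
    have h4 := Real.log_le_rpow_div h3.le (show (0 : ℝ) < 1 / 2 by norm_num)
    have h5 : (Ideal.absNorm v.asIdeal : ℝ) ^ (-(3 / 2 : ℝ)) =
        (Ideal.absNorm v.asIdeal : ℝ) ^ (1 / 2 : ℝ) / (Ideal.absNorm v.asIdeal : ℝ) ^ 2 := by
      rw [eq_div_iff (by positivity), ← Real.rpow_natCast, ← Real.rpow_add h3]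
      norm_num
    rw [h5]
    have h6 : Real.log (Ideal.absNorm v.asIdeal) / (Ideal.absNorm v.asIdeal : ℝ) ^ 2 ≤
        ((Ideal.absNorm v.asIdeal : ℝ) ^ (1 / 2 : ℝ) / (1 / 2)) /
          (Ideal.absNorm v.asIdeal : ℝ) ^ 2 :=
      div_le_div_of_nonneg_right h4 (by positivity)
    calc 2 * (Real.log (Ideal.absNorm v.asIdeal) / (Ideal.absNorm v.asIdeal : ℝ) ^ 2)
        ≤ 2 * (((Ideal.absNorm v.asIdeal : ℝ) ^ (1 / 2 : ℝ) / (1 / 2)) /
          (Ideal.absNorm v.asIdeal : ℝ) ^ 2) := by linarith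
      _ = _ := by ring

theorem log_div_le {x y : ℝ} (hx : 2 ≤ x) (hy : x ^ 2 ≤ y) :
    Real.log y / y ≤ 2 * (Real.log x / x ^ 2) := by
  have h1 : Real.exp 1 ≤ x ^ 2 := by
    have := Real.exp_one_lt_d9
    nlinarith
  have h2 := Real.log_div_self_antitoneOn (a := x ^ 2) (b := y) h1 (h1.trans hy) hy
  refine h2.trans (le_of_eq ?_)
  beta_reduce
  rw [Real.log_pow]
  push_cast
  ring

/-- The set of primes of `L` which divide `M` or have residue degree at least two contributes a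
bounded amount. -/
theorem bad_bound (M : Ideal (𝓞 K)) (hM : M ≠ ⊥) (S : Set (Vm (⊤ : Ideal (𝓞 L))))
    (hS : ∀ w : Vm (⊤ : Ideal (𝓞 L)), w ∉ S → ∀ v : HeightOneSpectrum (𝓞 K),
      w.1.asIdeal.LiesOver v.asIdeal → M ≤ v.asIdeal ∨ 2 ≤ w.1.asIdeal.inertiaDeg (𝓞 K)) :
    ∃ C : ℝ, ∀ s : ℝ, 1 < s → PS (Nv (⊤ : Ideal (𝓞 L))) Sᶜ s ≤ C := by
  classical
  choose un hun using exists_under K L
  let p : Vm (⊤ : Ideal (𝓞 L)) → HeightOneSpectrum (𝓞 K) := fun w => un w.1
  have huniq : ∀ (w : HeightOneSpectrum (𝓞 L)) (v : HeightOneSpectrum (𝓞 K)),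
      w.asIdeal.LiesOver v.asIdeal → un w = v := by
    intro w v hv
    apply HeightOneSpectrum.ext
    rw [(hun w).over, hv.over]
  have hfin : ∀ v, {w | p w = v}.Finite ∧ {w | p w = v}.ncard ≤ finrank K L := by
    intro v
    have h1 : Set.MapsTo (fun w : Vm (⊤ : Ideal (𝓞 L)) => w.1) {w | p w = v} (ov K L v) := by
      rintro w hw
      have h2 := hun w.1
      rw [show un w.1 = v from hw] at h2
      exact h2
    have h3 : Set.InjOn (fun w : Vm (⊤ : Ideal (𝓞 L)) => w.1) {w | p w = v} :=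
      fun a _ b _ hab => Subtype.ext hab
    refine ⟨Set.Finite.of_injOn h1 h3 (ov_finite K L v), ?_⟩
    calc {w | p w = v}.ncard ≤ (ov K L v).ncard :=
          Set.ncard_le_ncard_of_injOn _ h1 h3 (ov_finite K L v)
      _ ≤ _ := by rw [ov_ncard]; exact ncard_primesOver_le K L v
  let g : HeightOneSpectrum (𝓞 K) → ℝ := fun v =>
    2 * (Real.log (Ideal.absNorm v.asIdeal) / (Ideal.absNorm v.asIdeal : ℝ) ^ 2)
  let b : HeightOneSpectrum (𝓞 K) → ℝ := fun v => if M ≤ v.asIdeal then 1 else 0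
  have hg0 : ∀ v, 0 ≤ g v := fun v => by
    have := Real.log_natCast_nonneg (Ideal.absNorm v.asIdeal)
    simp only [g]
    positivity
  have hb0 : ∀ v, 0 ≤ b v := fun v => by
    simp only [b]
    split_ifs
    · exact zero_le_one
    · exact le_rfl
  have hgs : Summable g := summable_log_sq K
  have hbs : Summable b := by
    have h1 : {v : HeightOneSpectrum (𝓞 K) | M ≤ v.asIdeal}.Finite := by
      have h2 := Ideal.finite_factors hM
      refine h2.subset fun v hv => ?_
      exact Ideal.dvd_iff_le.2 hv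
    refine summable_of_hasFiniteSupport (h1.subset fun v hv => ?_)
    by_contra h0
    exact hv (if_neg h0)
  have hsum := summable_fibre p (finrank K L) hfin (fun v => g v + b v)
    (fun v => add_nonneg (hg0 v) (hb0 v)) (hgs.add hbs)
  refine ⟨∑' w, (g (p w) + b (p w)), fun s hs => ?_⟩
  have hN : ∀ w : Vm (⊤ : Ideal (𝓞 L)), (2 : ℝ) ≤ Nv ⊤ w := fun w => by
    exact_mod_cast two_le_Nv w
  have hle : ∀ w : Vm (⊤ : Ideal (𝓞 L)), w ∉ S →
      Real.log (Nv ⊤ w) * (Nv ⊤ w : ℝ) ^ (-s) ≤ g (p w) + b (p w) := by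
    intro w hw
    have h1 : Real.log (Nv ⊤ w) * (Nv ⊤ w : ℝ) ^ (-s) ≤ Real.log (Nv ⊤ w) / (Nv ⊤ w : ℝ) := by
      rw [div_eq_mul_inv, ← Real.rpow_neg_one]
      refine mul_le_mul_of_nonneg_left ?_ (Real.log_natCast_nonneg _)
      exact Real.rpow_le_rpow_of_exponent_le (by linarith [hN w]) (by linarith)
    refine h1.trans ?_
    rcases hS w hw (p w) (hun w.1) with h2 | h2
    · have h3 : Real.log (Nv ⊤ w) / (Nv ⊤ w : ℝ) ≤ 1 := by
        rw [div_le_one (by linarith [hN w])]
        have := Real.log_le_sub_one_of_pos (show (0 : ℝ) < Nv ⊤ w by linarith [hN w])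
        linarith
      have h4 : b (p w) = 1 := if_pos h2
      have h5 := hg0 (p w)
      linarith
    · have h3 : (Ideal.absNorm (p w).asIdeal : ℝ) ^ 2 ≤ Nv ⊤ w := by
        have h4 := absNorm_over K L w.1 (p w) (hun w.1)
        have h5 := Pool.Agent.H7.Artin.two_le_absNorm K (p w)
        have h6 : Ideal.absNorm (p w).asIdeal ^ 2 ≤ Nv ⊤ w := by
          rw [Nv, h4]
          exact Nat.pow_le_pow_right (by omega) h2
        exact_mod_cast h6
      have h4 : (2 : ℝ) ≤ Ideal.absNorm (p w).asIdeal := by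
        exact_mod_cast Pool.Agent.H7.Artin.two_le_absNorm K (p w)
      have h5 := log_div_le h4 h3
      have h6 := hb0 (p w)
      have h7 : g (p w) = 2 * (Real.log (Ideal.absNorm (p w).asIdeal) /
        (Ideal.absNorm (p w).asIdeal : ℝ) ^ 2) := rfl
      linarith
  have h8 : Summable fun w : (Sᶜ : Set (Vm (⊤ : Ideal (𝓞 L)))) =>
      g (p w) + b (p w) := hsum.subtype Sᶜ
  have h9 : Summable fun w : (Sᶜ : Set (Vm (⊤ : Ideal (𝓞 L)))) =>
      Real.log (Nv ⊤ w.1) * (Nv ⊤ w.1 : ℝ) ^ (-s) := by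
    refine Summable.of_nonneg_of_le (fun w => ?_) (fun w => hle w.1 w.2) h8
    exact mul_nonneg (Real.log_natCast_nonneg _) (by positivity)
  calc PS (Nv (⊤ : Ideal (𝓞 L))) Sᶜ s
      ≤ ∑' w : (Sᶜ : Set (Vm (⊤ : Ideal (𝓞 L)))), (g (p w) + b (p w)) :=
        Summable.tsum_le_tsum (fun w => hle w.1 w.2) h9 h8
    _ ≤ ∑' w, (g (p w) + b (p w)) :=
        hsum.tsum_subtype_le _ Sᶜ (fun w => add_nonneg (hg0 _) (hb0 _))

end Pool.Agent.H98.C1
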