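import Mathlib
import Pool.Agent.H98.C1.NormV

/-!
# Only finitely many primes ramify
-/

open NumberField IsDedekindDomain Module Finset Filter Topology
open Pool.Agent.H31.CF H29.C3 H37.HK Pool.Agent.H7.Artin
open scoped nonZeroDivisors Pointwise

namespace Pool.Agent.H98.C1

set_option linter.unusedSectionVars false

variable (K L : Type) [Field K] [NumberField K] [Field L] [NumberField L] [Algebra K L]
  [IsGalois K L]

theorem inertia_eq_bot (w : HeightOneSpectrum (𝓞 L)) (v : HeightOneSpectrum (𝓞 K))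
    (hw : w.asIdeal.LiesOver v.asIdeal) (h : ¬ w.asIdeal ∣ differentIdeal (𝓞 K) (𝓞 L)) :
    inertiaGroup K L w = ⊥ := by
  have : v.asIdeal.IsPrime := v.isPrime
  have : w.asIdeal.IsPrime := w.isPrime
  have h1 : Algebra.IsUnramifiedAt (𝓞 K) w.asIdeal := not_dvd_differentIdeal_iff.1 h
  have h2 : w.asIdeal.ramificationIdx (𝓞 K) = 1 := Ideal.ramificationIdx_eq_one_of_isUnramifiedAt
  have hc1 : Nat.card (inertiaGroup K L w) = v.asIdeal.ramificationIdxIn (𝓞 L) :=
    Ideal.card_inertia_eq_ramificationIdxIn (G := Gal(L/K)) v.asIdeal w.asIdeal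
  rw [Ideal.ramificationIdxIn_eq_ramificationIdx v.asIdeal w.asIdeal Gal(L/K), h2] at hc1
  exact Subgroup.card_eq_one.1 hc1

/-- Only finitely many primes of `K` ramify in `L`. -/
theorem finite_ram : {v : HeightOneSpectrum (𝓞 K) | ¬ Unr K L v}.Finite := by
  classical
  choose un hun using exists_under K L
  have h1 : {w : HeightOneSpectrum (𝓞 L) | w.asIdeal ∣ differentIdeal (𝓞 K) (𝓞 L)}.Finite :=
    Ideal.finite_factors differentIdeal_ne_bot
  refine (h1.image un).subset fun v hv => ?_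
  rw [Set.mem_ofPred_eq, Unr] at hv
  push Not at hv
  obtain ⟨w, hw, hne⟩ := hv
  refine ⟨w, ?_, ?_⟩
  · by_contra h2
    exact hne (inertia_eq_bot K L w v hw h2)
  · apply HeightOneSpectrum.ext
    rw [(hun w).over, hw.over]

/-- For every nonzero `M` there is a nonzero `M'` such that the primes prime to `M'` are prime to
`M` and unramified. -/
theorem exists_modulus (M : Ideal (𝓞 K)) (hM : M ≠ ⊥) :
    ∃ M' : Ideal (𝓞 K), M' ≠ ⊥ ∧ ∀ v : HeightOneSpectrum (𝓞 K), ¬ M' ≤ v.asIdeal →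
      ¬ M ≤ v.asIdeal ∧ Unr K L v := by
  classical
  let s := (finite_ram K L).toFinset
  refine ⟨M * ∏ v ∈ s, v.asIdeal, mul_ne_zero hM (Finset.prod_ne_zero_iff.2 fun v _ => v.ne_bot),
    fun v hv => ⟨fun h => hv (Ideal.mul_le_left.trans h), ?_⟩⟩
  by_contra h
  have h1 : v ∈ s := (finite_ram K L).mem_toFinset.2 h
  exact hv (Ideal.mul_le_right.trans (Ideal.dvd_iff_le.1 (Finset.dvd_prod_of_mem _ h1)))

end Pool.Agent.H98.C1
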