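import Mathlib
import Pool.Agent.H98.C1.Bad
import Pool.Agent.H29.C3.Defs

/-!
# The universal norm index inequality
-/

open NumberField IsDedekindDomain Module Finset Filter Topology
open Pool.Agent.H31.CF H29.C3 H37.HK
open scoped nonZeroDivisors Pointwise

namespace Pool.Agent.H98.C1

set_option linter.unusedSectionVars false

/-- Part B for all number fields and all moduli. -/
def PartB : Prop :=
  ∀ (K : Type) [Field K] [NumberField K] (M : Ideal (𝓞 K)), M ≠ ⊥ → PZ M

variable (K L : Type) [Field K] [NumberField K] [Field L] [NumberField L] [Algebra K L]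
  [IsGalois K L]

theorem single_mem_cop' (M : Ideal (𝓞 K)) (w : HeightOneSpectrum (𝓞 L))
    (v : HeightOneSpectrum (𝓞 K)) (hw : w.asIdeal.LiesOver v.asIdeal) (hv : ¬ M ≤ v.asIdeal) :
    (Finsupp.single w 1 : Dv L) ∈ Cop (M.map (algebraMap (𝓞 K) (𝓞 L))) := by
  classical
  intro w' hw'
  rw [Finsupp.single_apply, if_neg]
  rintro rfl
  apply hv
  rw [hw.over]
  exact Ideal.map_le_iff_le_comap.1 hw'

theorem relIndex_le (M : Ideal (𝓞 K)) (hM : M ≠ ⊥) (hK : PZ M) (hL : PZ (⊤ : Ideal (𝓞 L))) :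
    (Pm M ⊔ Nm K L M).relIndex (Cop M) ≠ 0 ∧
      (Pm M ⊔ Nm K L M).relIndex (Cop M) ≤ finrank K L := by
  classical
  have htop : (⊤ : Ideal (𝓞 L)) ≠ ⊥ := top_ne_bot
  obtain ⟨h⟩ := exists_hyp hM hK
  obtain ⟨hW⟩ := exists_hyp htop hL
  have hF1 : Finite (RC M) := finite_ray hM hK
  have hF2 : Finite (RC (⊤ : Ideal (𝓞 L))) := finite_ray htop hL
  have : Fintype (RC M) := Fintype.ofFinite _
  have : Fintype (RC (⊤ : Ideal (𝓞 L))) := Fintype.ofFinite _
  let H0 : AddSubgroup (Cop M) := (Pm M ⊔ Nm K L M).addSubgroupOf (Cop M)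
  let π : Cop M →+ RC M := QuotientAddGroup.mk' _
  let H : AddSubgroup (RC M) := H0.map π
  have hker : π.ker ≤ H0 := by
    rw [QuotientAddGroup.ker_mk']
    exact fun x hx => AddSubgroup.mem_addSubgroupOf.2 (le_sup_left (α := AddSubgroup (Dv K))
      (AddSubgroup.mem_addSubgroupOf.1 hx))
  have hidx : H.index = (Pm M ⊔ Nm K L M).relIndex (Cop M) := by
    rw [AddSubgroup.relIndex]
    exact AddSubgroup.index_map_eq H0 (QuotientAddGroup.mk'_surjective _) hker
  rw [← hidx]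
  refine ⟨AddSubgroup.index_ne_zero_of_finite, ?_⟩
  -- primes of degree one prime to `M`
  let S : Set (Vm (⊤ : Ideal (𝓞 L))) := {w | ∃ v : Vm M, w.1.asIdeal.LiesOver v.1.asIdeal ∧
    w.1.asIdeal.inertiaDeg (𝓞 K) = 1}
  have hcl : ∀ w : S, ∃ v : {v : Vm M | cv M v ∈ H}, w.1.1.asIdeal.LiesOver v.1.1.asIdeal ∧
      w.1.1.asIdeal.inertiaDeg (𝓞 K) = 1 := by
    rintro ⟨w, v, hv, hdeg⟩
    refine ⟨⟨v, ?_⟩, hv, hdeg⟩
    change cv M v ∈ H
    refine ⟨sng M v, ?_, rfl⟩
    change sng M v ∈ H0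
    rw [AddSubgroup.mem_addSubgroupOf]
    refine le_sup_right (α := AddSubgroup (Dv K)) ?_
    refine ⟨Finsupp.single w.1 1, single_mem_cop' K L M w.1 v.1 hv v.2, ?_⟩
    rw [nD_single K L w.1 v.1 hv, hdeg]
    simp [sng]
  choose q hq1 hq2 using hcl
  refine index_le h hW H (finrank K L) S q (fun w => ?_) (fun v => ?_) ?_
  · have h1 := absNorm_over K L w.1.1 (q w).1.1 (hq1 w)
    rw [hq2 w, pow_one] at h1
    exact h1
  · have h1 : Set.MapsTo (fun w : S => w.1.1) {w | q w = v} (ov K L v.1.1) := by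
      rintro w hw
      have h2 := hq1 w
      rw [show q w = v from hw] at h2
      exact h2
    have h3 : Set.InjOn (fun w : S => w.1.1) {w | q w = v} :=
      fun a _ b _ hab => Subtype.ext (Subtype.ext hab)
    refine ⟨Set.Finite.of_injOn h1 h3 (ov_finite K L v.1.1), ?_⟩
    calc {w : S | q w = v}.ncard ≤ (ov K L v.1.1).ncard :=
          Set.ncard_le_ncard_of_injOn _ h1 h3 (ov_finite K L v.1.1)
      _ ≤ _ := by rw [ov_ncard]; exact ncard_primesOver_le K L v.1.1
  · refine bad_bound K L M hM S fun w hw v hv => ?_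
    by_contra hcon
    push Not at hcon
    obtain ⟨h1, h2⟩ := hcon
    have h3 : w.1.asIdeal.IsMaximal := w.1.isMaximal
    have h4 : 0 < w.1.asIdeal.inertiaDeg (𝓞 K) := by
      have := hv
      have h5 := absNorm_over K L w.1 v hv
      rcases Nat.eq_zero_or_pos (w.1.asIdeal.inertiaDeg (𝓞 K)) with h6 | h6
      · rw [h6, pow_zero] at h5
        have := Pool.Agent.H7.Artin.two_le_absNorm L w.1
        omega
      · exact h6
    exact hw ⟨⟨v, h1⟩, hv, by omega⟩

theorem uniNorm (hB : PartB) : UniNorm := by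
  intro K L _ _ _ _ _ _ M hM _
  exact relIndex_le K L M hM (hB K M hM) (hB L ⊤ top_ne_bot)

end Pool.Agent.H98.C1
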