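import Mathlib
import Pool.Agent.H98.C1.Ram
import Pool.Agent.H98.C1.Uni
import Pool.Agent.H29.C3.UniCh

/-!
# The Frobenius elements generate
-/

open NumberField IsDedekindDomain Module Finset Filter Topology
open Pool.Agent.H31.CF H29.C3 H37.HK Pool.Agent.H7.Artin
open scoped nonZeroDivisors Pointwise

namespace Pool.Agent.H98.C1

set_option linter.unusedSectionVars false

variable (K L : Type) [Field K] [NumberField K] [Field L] [NumberField L] [Algebra K L]
  [IsGalois K L]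

/-- If all primes outside `M` are unramified of residue degree one then the extension is
trivial. -/
theorem finrank_le_one (M : Ideal (𝓞 K)) (hM : M ≠ ⊥) (hK : PZ M) (hL : PZ (⊤ : Ideal (𝓞 L)))
    (hsplit : ∀ v : HeightOneSpectrum (𝓞 K), ¬ M ≤ v.asIdeal → ∀ w : HeightOneSpectrum (𝓞 L),
      w.asIdeal.LiesOver v.asIdeal → inertiaGroup K L w = ⊥ ∧ w.asIdeal.inertiaDeg (𝓞 K) = 1) :
    finrank K L ≤ 1 := by
  classical
  have htop : (⊤ : Ideal (𝓞 L)) ≠ ⊥ := top_ne_bot
  obtain ⟨h⟩ := exists_hyp hM hK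
  obtain ⟨hW⟩ := exists_hyp htop hL
  have hF1 : Finite (RC M) := finite_ray hM hK
  have hF2 : Finite (RC (⊤ : Ideal (𝓞 L))) := finite_ray htop hL
  have : Fintype (RC M) := Fintype.ofFinite _
  have : Fintype (RC (⊤ : Ideal (𝓞 L))) := Fintype.ofFinite _
  have hcard : ∀ v : Vm M, (ov K L v.1).ncard = finrank K L := by
    intro v
    obtain ⟨w, hw⟩ := exists_primeAbove K L v.1
    have h1 : v.1.asIdeal.IsPrime := v.1.isPrime
    have h2 : w.asIdeal.IsPrime := w.isPrime
    obtain ⟨h3, h4⟩ := hsplit v.1 v.2 w hw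
    have h5 := Ideal.ncard_primesOver_mul_card_inertia_mul_finrank (G := Gal(L/K))
      v.1.asIdeal w.asIdeal
    have h6 : Nat.card (w.asIdeal.inertia Gal(L/K)) = 1 := by
      have h7 : w.asIdeal.inertia Gal(L/K) = ⊥ := h3
      rw [h7, Subgroup.card_bot]
    rw [h6, h4, mul_one, mul_one, IsGalois.card_aut_eq_finrank] at h5
    rw [ov_ncard, h5]
  have hequiv : ∀ v : Vm M, Nonempty (Fin (finrank K L) ≃ ov K L v.1) := by
    intro v
    have : Finite (ov K L v.1) := ov_finite K L v.1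
    have h1 : Nat.card (ov K L v.1) = finrank K L := by
      rw [Nat.card_coe_set_eq, hcard v]
    rw [← h1]
    exact ⟨(Finite.equivFin _).symm⟩
  let e : ∀ v : Vm M, Fin (finrank K L) ≃ ov K L v.1 := fun v => (hequiv v).some
  have htp : ∀ w : HeightOneSpectrum (𝓞 L), ¬ (⊤ : Ideal (𝓞 L)) ≤ w.asIdeal := by
    intro w hw
    exact w.isPrime.ne_top (top_le_iff.1 hw)
  refine le_one_of_injective h hW (finrank K L)
    (fun x => ⟨(e x.1 x.2).1, htp _⟩) ?_ ?_
  · rintro ⟨v, i⟩ ⟨v', i'⟩ hh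
    have h1 : (e v i).1 = (e v' i').1 := congrArg Subtype.val hh
    have h2 : v = v' := by
      apply Subtype.ext
      apply HeightOneSpectrum.ext
      have h3 : (e v i).1.asIdeal.LiesOver v.1.asIdeal := (e v i).2
      have h4 : (e v' i').1.asIdeal.LiesOver v'.1.asIdeal := (e v' i').2
      rw [h3.over, h4.over, h1]
    subst h2
    rw [(e v).injective (Subtype.ext h1)]
  · rintro ⟨v, i⟩
    have h3 : (e v i).1.asIdeal.LiesOver v.1.asIdeal := (e v i).2
    have h4 := absNorm_over K L (e v i).1 v.1 h3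
    rw [(hsplit v.1 v.2 _ h3).2, pow_one] at h4
    exact h4

variable {A : Type} [CommGroup A]

theorem mem_closure_frob (hB : PartB) (χ : Gal(L/K) →* A) (M : Ideal (𝓞 K)) (hM : M ≠ ⊥)
    (g : Gal(L/K)) :
    χ g ∈ Subgroup.closure {a : A | ∃ v : HeightOneSpectrum (𝓞 K), ¬ M ≤ v.asIdeal ∧
      a = fr K L χ v} := by
  classical
  obtain ⟨M', hM'0, hM'⟩ := exists_modulus K L M hM
  set B : Subgroup A := Subgroup.closure {a : A | ∃ v : HeightOneSpectrum (𝓞 K), ¬ M ≤ v.asIdeal ∧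
      a = fr K L χ v} with hBdef
  let χ₁ : Gal(L/K) →* A ⧸ B := (QuotientGroup.mk' B).comp χ
  let E' : IntermediateField K L := IntermediateField.fixedField χ₁.ker
  have hgal : IsGalois K E' := IsGalois.of_fixedField_normal_subgroup χ₁.ker
  let e : Gal(L/K) ⧸ χ₁.ker ≃* Gal(E'/K) := IsGalois.normalAutEquivQuotient χ₁.ker
  let χ' : Gal(E'/K) →* A ⧸ B := (QuotientGroup.kerLift χ₁).comp e.symm.toMonoidHom
  have hχ : χ'.comp (AlgEquiv.restrictNormalHom E') = χ₁ := by
    ext g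
    have h1 : (AlgEquiv.restrictNormalHom E' g : Gal(E'/K)) = e (g : Gal(L/K) ⧸ χ₁.ker) := by
      exact (IsGalois.normalAutEquivQuotient_apply χ₁.ker g).symm
    rw [MonoidHom.comp_apply, h1]
    change QuotientGroup.kerLift χ₁ (e.symm (e (g : Gal(L/K) ⧸ χ₁.ker))) = χ₁ g
    rw [MulEquiv.symm_apply_apply]
    exact QuotientGroup.kerLift_mk χ₁ g
  have hinj : Function.Injective χ' := by
    change Function.Injective (fun x => QuotientGroup.kerLift χ₁ (e.symm x))
    exact (QuotientGroup.kerLift_injective χ₁).comp e.symm.injective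
  have hfin : finrank K E' ≤ 1 := by
    refine finrank_le_one K E' M' hM'0 (hB K M' hM'0) (hB E' ⊤ top_ne_bot) ?_
    intro v hv w hw
    obtain ⟨hv1, hv2⟩ := hM' v hv
    have hv3 : Unr K E' v := unr_bot K E' L v hv2
    refine ⟨hv3 w hw, ?_⟩
    rw [← orderOf_fr K E' χ' hinj v hv3 w hw, orderOf_eq_one_iff, ← fr_restr K E' L χ' v hv3, hχ]
    change (QuotientGroup.mk (fr K L χ v) : A ⧸ B) = 1
    rw [QuotientGroup.eq_one_iff]
    exact Subgroup.subset_closure ⟨v, hv1, rfl⟩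
  have h1 : Nat.card (Gal(L/K) ⧸ χ₁.ker) ≤ 1 := by
    rw [Nat.card_congr e.toEquiv, IsGalois.card_aut_eq_finrank]
    exact hfin
  have h2 : χ₁.ker = ⊤ := by
    rw [← Subgroup.index_eq_one, Subgroup.index]
    have : 0 < Nat.card (Gal(L/K) ⧸ χ₁.ker) := Nat.card_pos
    omega
  have h3 : g ∈ χ₁.ker := by rw [h2]; exact Subgroup.mem_top g
  rw [MonoidHom.mem_ker] at h3
  exact (QuotientGroup.eq_one_iff (χ g)).1 h3

theorem frobGen (hB : PartB) : FrobGen := by
  intro K L _ _ _ _ _ _ M hM A _ χ g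
  have h1 := mem_closure_frob K L hB χ M hM g
  generalize χ g = a at h1
  induction h1 using Subgroup.closure_induction with
  | mem x hx =>
    obtain ⟨v, hv, rfl⟩ := hx
    refine ⟨Finsupp.single v 1, single_mem_cop K M v hv 1, ?_⟩
    rw [art_single, one_smul]
  | one => exact ⟨0, (Cop M).zero_mem, by rw [map_zero]; rfl⟩
  | mul x y _ _ hx hy =>
    obtain ⟨D, hD, hD'⟩ := hx
    obtain ⟨D₁, hD₁, hD₁'⟩ := hy
    exact ⟨D + D₁, (Cop M).add_mem hD hD₁, by rw [map_add, hD', hD₁']; rfl⟩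
  | inv x _ hx =>
    obtain ⟨D, hD, hD'⟩ := hx
    exact ⟨-D, (Cop M).neg_mem hD, by rw [map_neg, hD']; rfl⟩

end Pool.Agent.H98.C1
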