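import Mathlib
import Pool.Agent.H98.C1.Uni
import Pool.Agent.H37.HK.ArMain

/-!
# Part B in the form used here, from the analytic core
-/

open NumberField H37.HK

namespace Pool.Agent.H98.C1

theorem finite_real (F : Type) [Field F] [NumberField F] : Finite (F →+* ℝ) := by
  refine Finite.of_injective (fun f : F →+* ℝ => (algebraMap ℝ ℂ).comp f) fun f g h => ?_
  ext x
  have h1 := congrArg (fun φ : F →+* ℂ => φ x) h
  simpa using h1

/-- Part B in the form used here. -/
theorem partB_of_core
    (hCore : ∀ (F : Type) [Field F] [NumberField F], CoreStmt F) : PartB := by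
  intro K _ _ M hM
  have := finite_real K
  have : Fintype (K →+* ℝ) := Fintype.ofFinite _
  obtain ⟨ρ, hρ, h⟩ := ray_class_zeta_of_core (hCore K) M hM Finset.univ
  exact ⟨Finset.univ, fun σ => Finset.mem_univ σ, ρ, hρ, h⟩

end Pool.Agent.H98.C1
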